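import Mathlib

set_option autoImplicit false

/-!
# Thompson's group `F` acting on the real line

The group `FR` of all strictly increasing bijections of `ℝ` which are the identity outside `(0,1)`
and are piecewise linear with finitely many breakpoints, all dyadic, and slopes powers of `2`.
-/

namespace Pool.Agent.R727.Thompson

open Filter Topology Set

/-- Dyadic rationals. -/
def IsDyadic (x : ℝ) : Prop := ∃ (a : ℤ) (n : ℕ), x = a / 2 ^ n

lemma IsDyadic.zero : IsDyadic 0 := ⟨0, 0, by simp⟩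

lemma IsDyadic.one : IsDyadic 1 := ⟨1, 0, by simp⟩

lemma IsDyadic.add {x y : ℝ} (hx : IsDyadic x) (hy : IsDyadic y) : IsDyadic (x + y) := by
  obtain ⟨a, n, rfl⟩ := hx
  obtain ⟨b, m, rfl⟩ := hy
  refine ⟨a * 2 ^ m + b * 2 ^ n, n + m, ?_⟩
  push_cast
  field_simp
  ring

lemma IsDyadic.neg {x : ℝ} (hx : IsDyadic x) : IsDyadic (-x) := by
  obtain ⟨a, n, rfl⟩ := hx
  refine ⟨-a, n, ?_⟩
  push_cast
  ring

lemma IsDyadic.sub {x y : ℝ} (hx : IsDyadic x) (hy : IsDyadic y) : IsDyadic (x - y) := by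
  rw [sub_eq_add_neg]
  exact hx.add hy.neg

lemma IsDyadic.zpow_mul {x : ℝ} (hx : IsDyadic x) (k : ℤ) : IsDyadic ((2 : ℝ) ^ k * x) := by
  obtain ⟨a, n, rfl⟩ := hx
  rcases le_total 0 k with h | h
  · obtain ⟨m, rfl⟩ := Int.eq_ofNat_of_zero_le h
    refine ⟨2 ^ m * a, n, ?_⟩
    push_cast
    simp
    ring
  · obtain ⟨m, hm⟩ := Int.eq_ofNat_of_zero_le (neg_nonneg.2 h)
    have hk : k = -(m : ℤ) := by omega
    refine ⟨a, m + n, ?_⟩
    rw [hk, zpow_neg, zpow_natCast, pow_add]
    field_simp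

lemma IsDyadic.of_mul {x : ℝ} {k : ℤ} (hx : IsDyadic ((2 : ℝ) ^ k * x)) : IsDyadic x := by
  have h := hx.zpow_mul (-k)
  rwa [← mul_assoc, ← zpow_add₀ two_ne_zero, neg_add_cancel, zpow_zero, one_mul] at h

/-- Piecewise linear with finitely many breakpoints, all dyadic, and slopes powers of `2`. -/
def PL (f : ℝ → ℝ) : Prop :=
  ∃ S : Finset ℝ, (∀ s ∈ S, IsDyadic s) ∧
    ∀ x ∉ S, ∃ k : ℤ, ∀ᶠ y in 𝓝 x, f y = f x + (2 : ℝ) ^ k * (y - x)

/-- On an interval without breakpoints the function is affine. -/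
lemma affine_Ioo {f : ℝ → ℝ} {x y : ℝ} (hxy : x < y)
    (h : ∀ t ∈ Ioo x y, ∃ k : ℤ, ∀ᶠ u in 𝓝 t, f u = f t + (2 : ℝ) ^ k * (u - t)) :
    ∃ k : ℤ, ∀ t ∈ Ioo x y, ∀ u ∈ Ioo x y, f u = f t + (2 : ℝ) ^ k * (u - t) := by
  have hd : ∀ t ∈ Ioo x y, ∃ k : ℤ, ∀ᶠ u in 𝓝 t, HasDerivAt f ((2 : ℝ) ^ k) u := by
    intro t ht
    obtain ⟨k, hk⟩ := h t ht
    refine ⟨k, ?_⟩
    have h1 : ∀ᶠ u in 𝓝 t, ∀ᶠ w in 𝓝 u, f w = f t + (2 : ℝ) ^ k * (w - t) :=
      eventually_eventually_nhds.2 hk
    filter_upwards [h1] with u hu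
    have h2 : HasDerivAt (fun w => f t + (2 : ℝ) ^ k * (w - t)) ((2 : ℝ) ^ k) u := by
      have h3 : HasDerivAt (fun w : ℝ => w - t) 1 u := (hasDerivAt_id u).sub_const t
      have h4 := (h3.const_mul ((2 : ℝ) ^ k)).const_add (f t)
      simpa using h4
    exact h2.congr_of_eventuallyEq hu
  have hopen : IsOpen (Ioo x y) := isOpen_Ioo
  have hconn : IsPreconnected (Ioo x y) := isPreconnected_Ioo
  have hdiff : DifferentiableOn ℝ f (Ioo x y) := by
    intro t ht
    obtain ⟨k, hk⟩ := hd t ht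
    exact (hk.self_of_nhds).differentiableAt.differentiableWithinAt
  obtain ⟨m, hm⟩ : (Ioo x y).Nonempty := nonempty_Ioo.2 hxy
  obtain ⟨k, hk⟩ := hd m hm
  have hconst : ∀ t ∈ Ioo x y, deriv f t = (2 : ℝ) ^ k := by
    intro t ht
    have h1 : DifferentiableOn ℝ (deriv f) (Ioo x y) := by
      intro u hu
      obtain ⟨l, hl⟩ := hd u hu
      have h2 : deriv f =ᶠ[𝓝 u] fun _ => (2 : ℝ) ^ l := by
        filter_upwards [hl] with w hw
        exact hw.deriv
      exact ((differentiableAt_const _).congr_of_eventuallyEq h2).differentiableWithinAt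
    have h2 : (Ioo x y).EqOn (deriv (deriv f)) 0 := by
      intro u hu
      obtain ⟨l, hl⟩ := hd u hu
      have h2 : deriv f =ᶠ[𝓝 u] fun _ => (2 : ℝ) ^ l := by
        filter_upwards [hl] with w hw
        exact hw.deriv
      rw [h2.deriv_eq]
      simp
    rw [hopen.is_const_of_deriv_eq_zero hconn h1 h2 ht hm]
    exact hk.self_of_nhds.deriv
  refine ⟨k, fun t ht u hu => ?_⟩
  have h1 : DifferentiableOn ℝ (fun w => f w - (2 : ℝ) ^ k * w) (Ioo x y) :=
    hdiff.sub ((differentiableOn_id).const_mul _)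
  have h2 : (Ioo x y).EqOn (deriv (fun w => f w - (2 : ℝ) ^ k * w)) 0 := by
    intro w hw
    obtain ⟨l, hl⟩ := hd w hw
    have h3 : HasDerivAt f ((2 : ℝ) ^ k) w := by
      have h4 := hl.self_of_nhds
      rw [← hconst w hw]
      exact h4.differentiableAt.hasDerivAt
    have h5 : HasDerivAt (fun w => f w - (2 : ℝ) ^ k * w) ((2 : ℝ) ^ k - (2 : ℝ) ^ k * 1) w :=
      h3.sub ((hasDerivAt_id w).const_mul _)
    rw [h5.deriv]
    simp
  have h3 : f u - (2 : ℝ) ^ k * u = f t - (2 : ℝ) ^ k * t :=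
    hopen.is_const_of_deriv_eq_zero hconn h1 h2 hu ht
  linarith

lemma affine_Icc {f : ℝ → ℝ} (hf : Continuous f) {x y : ℝ} (hxy : x < y)
    (h : ∀ t ∈ Ioo x y, ∃ k : ℤ, ∀ᶠ u in 𝓝 t, f u = f t + (2 : ℝ) ^ k * (u - t)) :
    ∃ k : ℤ, ∀ t ∈ Icc x y, ∀ u ∈ Icc x y, f u = f t + (2 : ℝ) ^ k * (u - t) := by
  obtain ⟨k, hk⟩ := affine_Ioo hxy h
  refine ⟨k, ?_⟩
  have hcl : closure (Ioo x y) = Icc x y := closure_Ioo hxy.ne
  -- first in `t`
  have h1 : ∀ u ∈ Ioo x y, ∀ t ∈ Icc x y, f u = f t + (2 : ℝ) ^ k * (u - t) := by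
    intro u hu t ht
    have hc : IsClosed {t | f u = f t + (2 : ℝ) ^ k * (u - t)} :=
      isClosed_eq continuous_const (by fun_prop)
    rw [← hcl] at ht
    exact closure_minimal (fun t ht => hk t ht u hu) hc ht
  intro t ht u hu
  have hc : IsClosed {u | f u = f t + (2 : ℝ) ^ k * (u - t)} :=
    isClosed_eq hf (by fun_prop)
  rw [← hcl] at hu
  exact closure_minimal (fun u hu => h1 u hu t ht) hc hu

/-- Elements of Thompson's group as permutations of `ℝ`. -/
structure IsF (f : Equiv.Perm ℝ) : Prop where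
  mono : StrictMono f
  left : ∀ x ≤ 0, f x = x
  right : ∀ x, 1 ≤ x → f x = x
  pl : PL f

lemma IsF.continuous {f : Equiv.Perm ℝ} (hf : StrictMono f) : Continuous f :=
  hf.monotone.continuous_of_surjective f.surjective

lemma strictMono_inv {f : Equiv.Perm ℝ} (hf : StrictMono f) : StrictMono (f⁻¹ : Equiv.Perm ℝ) := by
  intro x y hxy
  rw [← hf.lt_iff_lt]
  simpa using hxy

lemma IsF.dyadic_aux {f : Equiv.Perm ℝ} (hf : IsF f) {S : Finset ℝ}
    (hS : ∀ s ∈ S, IsDyadic s)
    (h : ∀ x ∉ S, ∃ k : ℤ, ∀ᶠ y in 𝓝 x, f y = f x + (2 : ℝ) ^ k * (y - x)) :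
    ∀ (n : ℕ) (x : ℝ), (S.filter (· < x)).card ≤ n →
      (IsDyadic x ↔ IsDyadic (f x)) := by
  classical
  intro n
  induction n with
  | zero =>
    intro x hx
    rcases le_or_gt x 0 with h0 | h0
    · rw [hf.left x h0]
    · have h1 : ∀ t ∈ Ioo 0 x, ∃ k : ℤ, ∀ᶠ u in 𝓝 t, f u = f t + (2 : ℝ) ^ k * (u - t) := by
        intro t ht
        apply h
        intro htS
        have h2 : t ∈ S.filter (· < x) := Finset.mem_filter.2 ⟨htS, ht.2⟩
        rw [Finset.card_eq_zero.1 (Nat.le_zero.1 hx)] at h2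
        simp at h2
      obtain ⟨k, hk⟩ := affine_Icc (IsF.continuous hf.mono) h0 h1
      have h2 := hk 0 ⟨le_refl _, h0.le⟩ x ⟨h0.le, le_refl _⟩
      rw [hf.left 0 le_rfl, zero_add, sub_zero] at h2
      rw [h2]
      exact ⟨fun h => h.zpow_mul k, fun h => h.of_mul⟩
  | succ n ih =>
    intro x hx
    rcases le_or_gt x 0 with h0 | h0
    · rw [hf.left x h0]
    · -- the largest point of `S ∪ {0}` below `x`
      let T : Finset ℝ := (insert 0 S).filter (· < x)
      have hT : T.Nonempty := ⟨0, Finset.mem_filter.2 ⟨Finset.mem_insert_self _ _, h0⟩⟩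
      let s := T.max' hT
      have hsT : s ∈ T := T.max'_mem hT
      have hsx : s < x := (Finset.mem_filter.1 hsT).2
      have h1 : ∀ t ∈ Ioo s x, ∃ k : ℤ, ∀ᶠ u in 𝓝 t, f u = f t + (2 : ℝ) ^ k * (u - t) := by
        intro t ht
        apply h
        intro htS
        have h2 : t ∈ T := Finset.mem_filter.2 ⟨Finset.mem_insert_of_mem htS, ht.2⟩
        exact absurd (T.le_max' t h2) (not_le.2 ht.1)
      obtain ⟨k, hk⟩ := affine_Icc (IsF.continuous hf.mono) hsx h1
      have h2 := hk s ⟨le_refl _, hsx.le⟩ x ⟨hsx.le, le_refl _⟩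
      have hs : IsDyadic s ∧ IsDyadic (f s) := by
        rcases Finset.mem_insert.1 (Finset.mem_filter.1 hsT).1 with h3 | h3
        · rw [h3, hf.left 0 le_rfl]
          exact ⟨IsDyadic.zero, IsDyadic.zero⟩
        · refine ⟨hS s h3, (ih s ?_).1 (hS s h3)⟩
          have h4 : S.filter (· < s) ⊂ S.filter (· < x) := by
            refine Finset.ssubset_iff_of_subset (fun t ht => ?_) |>.2
              ⟨s, Finset.mem_filter.2 ⟨h3, hsx⟩, fun h5 => ?_⟩
            · rw [Finset.mem_filter] at ht ⊢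
              exact ⟨ht.1, ht.2.trans hsx⟩
            · exact lt_irrefl _ (Finset.mem_filter.1 h5).2
          have h5 := Finset.card_lt_card h4
          omega
      rw [h2]
      constructor
      · intro hx
        exact hs.2.add ((hx.sub hs.1).zpow_mul k)
      · intro hx
        have h3 := (hx.sub hs.2)
        rw [add_sub_cancel_left] at h3
        have h4 := h3.of_mul.add hs.1
        rwa [sub_add_cancel] at h4

lemma IsF.dyadic {f : Equiv.Perm ℝ} (hf : IsF f) (x : ℝ) : IsDyadic x ↔ IsDyadic (f x) := by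
  obtain ⟨S, hS, h⟩ := hf.pl
  exact hf.dyadic_aux hS h _ x le_rfl

lemma IsF.one : IsF 1 where
  mono := strictMono_id
  left _ _ := rfl
  right _ _ := rfl
  pl := ⟨∅, by simp, fun x _ => ⟨0, by simp⟩⟩

lemma IsF.mul {f g : Equiv.Perm ℝ} (hf : IsF f) (hg : IsF g) : IsF (f * g) where
  mono := hf.mono.comp hg.mono
  left x hx := by rw [Equiv.Perm.mul_apply, hg.left x hx, hf.left x hx]
  right x hx := by rw [Equiv.Perm.mul_apply, hg.right x hx, hf.right x hx]
  pl := by
    classical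
    obtain ⟨S, hS, h⟩ := hf.pl
    obtain ⟨T, hT, h'⟩ := hg.pl
    refine ⟨T ∪ S.image (g⁻¹ : Equiv.Perm ℝ), ?_, ?_⟩
    · intro s hs
      rcases Finset.mem_union.1 hs with hs | hs
      · exact hT s hs
      · obtain ⟨t, ht, rfl⟩ := Finset.mem_image.1 hs
        rw [hg.dyadic]
        simpa using hS t ht
    · intro x hx
      rw [Finset.mem_union, not_or] at hx
      obtain ⟨l, hl⟩ := h' x hx.1
      obtain ⟨k, hk⟩ := h (g x) (fun h1 => hx.2 (Finset.mem_image.2 ⟨g x, h1, by simp⟩))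
      refine ⟨k + l, ?_⟩
      have h1 : ∀ᶠ y in 𝓝 x, f (g y) = f (g x) + (2 : ℝ) ^ k * (g y - g x) :=
        (IsF.continuous hg.mono).continuousAt.eventually hk
      filter_upwards [hl, h1] with y hy hy'
      rw [Equiv.Perm.mul_apply, Equiv.Perm.mul_apply, hy', hy, zpow_add₀ two_ne_zero]
      ring

lemma IsF.inv {f : Equiv.Perm ℝ} (hf : IsF f) : IsF f⁻¹ where
  mono := strictMono_inv hf.mono
  left x hx := by rw [Equiv.Perm.inv_eq_iff_eq, hf.left x hx]
  right x hx := by rw [Equiv.Perm.inv_eq_iff_eq, hf.right x hx]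
  pl := by
    classical
    obtain ⟨S, hS, h⟩ := hf.pl
    refine ⟨S.image f, ?_, ?_⟩
    · intro s hs
      obtain ⟨t, ht, rfl⟩ := Finset.mem_image.1 hs
      exact (hf.dyadic t).1 (hS t ht)
    · intro y hy
      obtain ⟨k, hk⟩ := h (f⁻¹ y) (fun h1 => hy (Finset.mem_image.2 ⟨f⁻¹ y, h1, by simp⟩))
      refine ⟨-k, ?_⟩
      have h1 := ((IsF.continuous (strictMono_inv hf.mono)).continuousAt (x := y)).eventually hk
      filter_upwards [h1] with u hu
      have e1 : f (f⁻¹ u) = u := f.apply_symm_apply u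
      have e2 : f (f⁻¹ y) = y := f.apply_symm_apply y
      rw [e1, e2] at hu
      rw [zpow_neg]
      field_simp
      linarith

/-- Thompson's group as a group of permutations of `ℝ`. -/
def FR : Subgroup (Equiv.Perm ℝ) where
  carrier := {f | IsF f}
  mul_mem' hf hg := IsF.mul hf hg
  one_mem' := IsF.one
  inv_mem' hf := IsF.inv hf

/-- Application. -/
def ap (f : FR) (x : ℝ) : ℝ := f.1 x

@[simp] lemma ap_one (x : ℝ) : ap 1 x = x := rfl

@[simp] lemma ap_mul (f g : FR) (x : ℝ) : ap (f * g) x = ap f (ap g x) := rfl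

@[simp] lemma ap_inv_ap (f : FR) (x : ℝ) : ap f⁻¹ (ap f x) = x := f.1.symm_apply_apply x

@[simp] lemma ap_ap_inv (f : FR) (x : ℝ) : ap f (ap f⁻¹ x) = x := f.1.apply_symm_apply x

lemma ap_ext {f g : FR} (h : ∀ x, ap f x = ap g x) : f = g :=
  Subtype.ext (Equiv.ext h)

lemma ap_lt (f : FR) {x y : ℝ} : ap f x < ap f y ↔ x < y := f.2.mono.lt_iff_lt

lemma ap_le (f : FR) {x y : ℝ} : ap f x ≤ ap f y ↔ x ≤ y := f.2.mono.le_iff_le

lemma ap_left (f : FR) {x : ℝ} (hx : x ≤ 0) : ap f x = x := f.2.left x hx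

lemma ap_right (f : FR) {x : ℝ} (hx : 1 ≤ x) : ap f x = x := f.2.right x hx

lemma ap_inv_eq {f : FR} {x : ℝ} (h : ap f x = x) : ap f⁻¹ x = x := by
  conv_lhs => rw [← h]
  exact ap_inv_ap f x

lemma ap_cont (f : FR) : Continuous (ap f) := IsF.continuous f.2.mono

lemma ap_pow_eq {f : FR} {x : ℝ} (h : ap f x = x) (n : ℕ) : ap (f ^ n) x = x := by
  induction n with
  | zero => simp
  | succ n ih => rw [pow_succ, ap_mul, h, ih]

lemma ap_dyadic (f : FR) (x : ℝ) : IsDyadic x ↔ IsDyadic (ap f x) := f.2.dyadic x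

lemma commute_of_disjoint {f g : FR} (h : ∀ x, ap f x = x ∨ ap g x = x) : Commute f g := by
  have h1 : Commute f.1 g.1 := Equiv.Perm.Disjoint.commute h
  exact Subtype.ext h1

/-- Conjugates by elements which agree on the support. -/
lemma conj_eq {f h c : FR} (hc : ∀ x, ap c x ≠ x → ap f x = ap h x) :
    f * c * f⁻¹ = h * c * h⁻¹ := by
  have h1 : Commute (h⁻¹ * f) c := by
    apply commute_of_disjoint
    intro x
    by_cases hx : ap c x = x
    · exact Or.inr hx
    · left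
      rw [ap_mul, hc x hx, ap_inv_ap]
  have h2 : h⁻¹ * f * c = c * (h⁻¹ * f) := h1
  calc f * c * f⁻¹ = h * (h⁻¹ * f * c) * f⁻¹ := by group
    _ = h * (c * (h⁻¹ * f)) * f⁻¹ := by rw [h2]
    _ = h * c * h⁻¹ := by group

/-! ### The basic elements -/

/-- Moves the points of `(α, β)` to the right. -/
noncomputable def Rf (α β δ x : ℝ) : ℝ := x + max 0 (min (x - α) (min δ ((β - x) / 2)))

/-- The inverse of `Rf`. -/
noncomputable def Rg (α β δ y : ℝ) : ℝ := y - max 0 (min ((y - α) / 2) (min δ (β - y)))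

lemma Rg_Rf {α β δ : ℝ} (hδ : 0 < δ) (h : 3 * δ ≤ β - α) (x : ℝ) :
    Rg α β δ (Rf α β δ x) = x := by
  unfold Rg Rf
  rcases le_total x α with h1 | h1
  · have e1 : min (x - α) (min δ ((β - x) / 2)) ≤ 0 := (min_le_left _ _).trans (by linarith)
    rw [max_eq_left e1, add_zero]
    have e2 : min ((x - α) / 2) (min δ (β - x)) ≤ 0 := (min_le_left _ _).trans (by linarith)
    rw [max_eq_left e2, sub_zero]
  rcases le_total β x with h2 | h2
  · have e1 : min (x - α) (min δ ((β - x) / 2)) ≤ 0 :=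
      (min_le_right _ _).trans ((min_le_right _ _).trans (by linarith))
    rw [max_eq_left e1, add_zero]
    have e2 : min ((x - α) / 2) (min δ (β - x)) ≤ 0 :=
      (min_le_right _ _).trans ((min_le_right _ _).trans (by linarith))
    rw [max_eq_left e2, sub_zero]
  rcases le_total x (α + δ) with h3 | h3
  · have e1 : min (x - α) (min δ ((β - x) / 2)) = x - α :=
      min_eq_left (le_min (by linarith) (by linarith))
    rw [e1, max_eq_right (by linarith)]
    have e2 : min ((x + (x - α) - α) / 2) (min δ (β - (x + (x - α)))) = x - α := by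
      rw [min_eq_left (le_min (by linarith) (by linarith))]
      ring
    rw [e2, max_eq_right (by linarith)]
    ring
  rcases le_total x (β - 2 * δ) with h4 | h4
  · have e1 : min (x - α) (min δ ((β - x) / 2)) = δ := by
      rw [min_eq_left (a := δ) (by linarith), min_eq_right (by linarith)]
    rw [e1, max_eq_right hδ.le]
    have e2 : min ((x + δ - α) / 2) (min δ (β - (x + δ))) = δ := by
      rw [min_eq_left (a := δ) (by linarith), min_eq_right (by linarith)]
    rw [e2, max_eq_right hδ.le]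
    ring
  · have e1 : min (x - α) (min δ ((β - x) / 2)) = (β - x) / 2 := by
      rw [min_eq_right (a := δ) (by linarith), min_eq_right (by linarith)]
    rw [e1, max_eq_right (by linarith)]
    have e2 : min ((x + (β - x) / 2 - α) / 2) (min δ (β - (x + (β - x) / 2))) = (β - x) / 2 := by
      rw [min_eq_right (a := δ) (by linarith), min_eq_right (by linarith)]
      ring
    rw [e2, max_eq_right (by linarith)]
    ring

lemma Rf_Rg {α β δ : ℝ} (hδ : 0 < δ) (h : 3 * δ ≤ β - α) (x : ℝ) :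
    Rf α β δ (Rg α β δ x) = x := by
  unfold Rg Rf
  rcases le_total x α with h1 | h1
  · have e2 : min ((x - α) / 2) (min δ (β - x)) ≤ 0 := (min_le_left _ _).trans (by linarith)
    rw [max_eq_left e2, sub_zero]
    have e1 : min (x - α) (min δ ((β - x) / 2)) ≤ 0 := (min_le_left _ _).trans (by linarith)
    rw [max_eq_left e1, add_zero]
  rcases le_total β x with h2 | h2
  · have e2 : min ((x - α) / 2) (min δ (β - x)) ≤ 0 :=
      (min_le_right _ _).trans ((min_le_right _ _).trans (by linarith))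
    rw [max_eq_left e2, sub_zero]
    have e1 : min (x - α) (min δ ((β - x) / 2)) ≤ 0 :=
      (min_le_right _ _).trans ((min_le_right _ _).trans (by linarith))
    rw [max_eq_left e1, add_zero]
  rcases le_total x (α + 2 * δ) with h3 | h3
  · have e1 : min ((x - α) / 2) (min δ (β - x)) = (x - α) / 2 :=
      min_eq_left (le_min (by linarith) (by linarith))
    rw [e1, max_eq_right (by linarith)]
    have e2 : min (x - (x - α) / 2 - α) (min δ ((β - (x - (x - α) / 2)) / 2)) = (x - α) / 2 := by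
      rw [min_eq_left (le_min (by linarith) (by linarith))]
      ring
    rw [e2, max_eq_right (by linarith)]
    ring
  rcases le_total x (β - δ) with h4 | h4
  · have e1 : min ((x - α) / 2) (min δ (β - x)) = δ := by
      rw [min_eq_left (a := δ) (by linarith), min_eq_right (by linarith)]
    rw [e1, max_eq_right hδ.le]
    have e2 : min (x - δ - α) (min δ ((β - (x - δ)) / 2)) = δ := by
      rw [min_eq_left (a := δ) (by linarith), min_eq_right (by linarith)]
    rw [e2, max_eq_right hδ.le]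
    ring
  · have e1 : min ((x - α) / 2) (min δ (β - x)) = β - x := by
      rw [min_eq_right (a := δ) (by linarith), min_eq_right (by linarith)]
    rw [e1, max_eq_right (by linarith)]
    have e2 : min (x - (β - x) - α) (min δ ((β - (x - (β - x))) / 2)) = β - x := by
      rw [min_eq_right (a := δ) (by linarith), min_eq_right (by linarith)]
      ring
    rw [e2, max_eq_right (by linarith)]
    ring

/-- The values of `Rf` on the five intervals. -/
lemma Rf_val {α β δ : ℝ} (hδ : 0 < δ) (h : 3 * δ ≤ β - α) (x : ℝ) :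
    (x ≤ α → Rf α β δ x = x) ∧ (α ≤ x → x ≤ α + δ → Rf α β δ x = α + 2 * (x - α)) ∧
    (α + δ ≤ x → x ≤ β - 2 * δ → Rf α β δ x = x + δ) ∧
    (β - 2 * δ ≤ x → x ≤ β → Rf α β δ x = β + (x - β) / 2) ∧ (β ≤ x → Rf α β δ x = x) := by
  unfold Rf
  refine ⟨fun h1 => ?_, fun h1 h2 => ?_, fun h1 h2 => ?_, fun h1 h2 => ?_, fun h1 => ?_⟩
  · have e1 : min (x - α) (min δ ((β - x) / 2)) ≤ 0 := (min_le_left _ _).trans (by linarith)
    rw [max_eq_left e1, add_zero]
  · have e1 : min (x - α) (min δ ((β - x) / 2)) = x - α :=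
      min_eq_left (le_min (by linarith) (by linarith))
    rw [e1, max_eq_right (by linarith)]
    ring
  · have e1 : min (x - α) (min δ ((β - x) / 2)) = δ := by
      rw [min_eq_left (a := δ) (by linarith), min_eq_right (by linarith)]
    rw [e1, max_eq_right hδ.le]
  · have e1 : min (x - α) (min δ ((β - x) / 2)) = (β - x) / 2 := by
      rw [min_eq_right (a := δ) (by linarith), min_eq_right (by linarith)]
    rw [e1, max_eq_right (by linarith)]
    ring
  · have e1 : min (x - α) (min δ ((β - x) / 2)) ≤ 0 :=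
      (min_le_right _ _).trans ((min_le_right _ _).trans (by linarith))
    rw [max_eq_left e1, add_zero]

lemma Rf_mono {α β δ : ℝ} (hδ : 0 < δ) (h : 3 * δ ≤ β - α) : StrictMono (Rf α β δ) := by
  have hm : Monotone (Rf α β δ) := by
    intro x y hxy
    have hx := Rf_val hδ h x
    have hy := Rf_val hδ h y
    rcases le_total x α with h1 | h1
    · rw [hx.1 h1]
      have : y ≤ Rf α β δ y := by
        unfold Rf
        linarith [le_max_left 0 (min (y - α) (min δ ((β - y) / 2)))]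
      linarith
    rcases le_total β y with h2 | h2
    · rw [hy.2.2.2.2 h2]
      rcases le_total β x with h3 | h3
      · rw [hx.2.2.2.2 h3]
        exact hxy
      · have : Rf α β δ x ≤ β := by
          rcases le_total x (α + δ) with h4 | h4
          · rw [hx.2.1 h1 h4]
            linarith
          rcases le_total x (β - 2 * δ) with h5 | h5
          · rw [hx.2.2.1 h4 h5]
            linarith
          · rw [hx.2.2.2.1 h5 h3]
            linarith
        linarith
    rcases le_total x (α + δ) with h4 | h4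
    · rw [hx.2.1 h1 h4]
      rcases le_total y (α + δ) with h5 | h5
      · rw [hy.2.1 (h1.trans hxy) h5]
        linarith
      rcases le_total y (β - 2 * δ) with h6 | h6
      · rw [hy.2.2.1 h5 h6]
        linarith
      · rw [hy.2.2.2.1 h6 h2]
        linarith
    rcases le_total x (β - 2 * δ) with h5 | h5
    · rw [hx.2.2.1 h4 h5]
      rcases le_total y (β - 2 * δ) with h6 | h6
      · rw [hy.2.2.1 (h4.trans hxy) h6]
        linarith
      · rw [hy.2.2.2.1 h6 h2]
        linarith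
    · rw [hx.2.2.2.1 h5 (hxy.trans h2), hy.2.2.2.1 (h5.trans hxy) h2]
      linarith
  refine hm.strictMono_of_injective fun x y hxy => ?_
  rw [← Rg_Rf hδ h x, hxy, Rg_Rf hδ h]

lemma Rf_pl {α β δ : ℝ} (hδ : 0 < δ) (h : 3 * δ ≤ β - α) (hα : IsDyadic α) (hβ : IsDyadic β)
    (hδ' : IsDyadic δ) : PL (Rf α β δ) := by
  classical
  refine ⟨{α, α + δ, β - 2 * δ, β}, ?_, ?_⟩
  · intro s hs
    simp only [Finset.mem_insert, Finset.mem_singleton] at hs
    rcases hs with rfl | rfl | rfl | rfl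
    · exact hα
    · exact hα.add hδ'
    · have := hδ'.zpow_mul 1
      rw [zpow_one] at this
      exact hβ.sub this
    · exact hβ
  · intro x hx
    simp only [Finset.mem_insert, Finset.mem_singleton, not_or] at hx
    obtain ⟨h1, h2, h3, h4⟩ := hx
    rcases lt_or_gt_of_ne h1 with h1 | h1
    · refine ⟨0, ?_⟩
      filter_upwards [Iio_mem_nhds h1] with y hy
      rw [(Rf_val hδ h y).1 (le_of_lt hy), (Rf_val hδ h x).1 h1.le]
      simp
    rcases lt_or_gt_of_ne h4 with h4 | h4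
    swap
    · refine ⟨0, ?_⟩
      filter_upwards [Ioi_mem_nhds h4] with y hy
      rw [(Rf_val hδ h y).2.2.2.2 (le_of_lt hy), (Rf_val hδ h x).2.2.2.2 h4.le]
      simp
    rcases lt_or_gt_of_ne h2 with h2 | h2
    · refine ⟨1, ?_⟩
      filter_upwards [Ioo_mem_nhds h1 h2] with y hy
      rw [(Rf_val hδ h y).2.1 hy.1.le hy.2.le, (Rf_val hδ h x).2.1 (le_of_lt h1) h2.le]
      rw [zpow_one]
      ring
    rcases lt_or_gt_of_ne h3 with h3 | h3
    · refine ⟨0, ?_⟩
      filter_upwards [Ioo_mem_nhds h2 h3] with y hy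
      rw [(Rf_val hδ h y).2.2.1 hy.1.le hy.2.le, (Rf_val hδ h x).2.2.1 (le_of_lt h2) h3.le]
      rw [zpow_zero]
      ring
    · refine ⟨-1, ?_⟩
      filter_upwards [Ioo_mem_nhds h3 h4] with y hy
      rw [(Rf_val hδ h y).2.2.2.1 hy.1.le hy.2.le, (Rf_val hδ h x).2.2.2.1 (le_of_lt h3) h4.le]
      rw [zpow_neg, zpow_one]
      ring

/-- The existence of an element which moves exactly the points of `(α, β)`, to the right, and has
slope `2` at `α` and slope `1/2` at `β`. -/
lemma exists_R {α β : ℝ} (hα : IsDyadic α) (hβ : IsDyadic β) (h0 : 0 ≤ α) (hαβ : α < β)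
    (h1 : β ≤ 1) : ∃ f : FR, (∀ x, x ≤ α → ap f x = x) ∧ (∀ x, β ≤ x → ap f x = x) ∧
      (∀ x, α < x → x < β → x < ap f x) ∧
      (∀ᶠ x in 𝓝[Ici α] α, ap f x = α + 2 * (x - α)) ∧
      (∀ᶠ x in 𝓝[Iic β] β, ap f x = β + 2⁻¹ * (x - β)) := by
  -- a small dyadic `δ`
  obtain ⟨n, hn⟩ : ∃ n : ℕ, 3 * (1 / 2 : ℝ) ^ n ≤ β - α := by
    obtain ⟨n, hn⟩ := exists_pow_lt_of_lt_one (show 0 < (β - α) / 3 by linarith)
      (show (1 / 2 : ℝ) < 1 by norm_num)
    exact ⟨n, by linarith⟩
  set δ : ℝ := (1 / 2 : ℝ) ^ n with hδd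
  have hδ : 0 < δ := by positivity
  have hδ' : IsDyadic δ := ⟨1, n, by rw [hδd]; push_cast; rw [one_div_pow]⟩
  let f : Equiv.Perm ℝ := ⟨Rf α β δ, Rg α β δ, Rg_Rf hδ hn, Rf_Rg hδ hn⟩
  have hf : IsF f := by
    refine ⟨Rf_mono hδ hn, fun x hx => (Rf_val hδ hn x).1 (hx.trans h0),
      fun x hx => (Rf_val hδ hn x).2.2.2.2 (h1.trans hx), Rf_pl hδ hn hα hβ hδ'⟩
  refine ⟨⟨f, hf⟩, fun x hx => (Rf_val hδ hn x).1 hx, fun x hx => (Rf_val hδ hn x).2.2.2.2 hx,
    fun x hx hx' => ?_, ?_, ?_⟩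
  · change x < Rf α β δ x
    unfold Rf
    have : 0 < min (x - α) (min δ ((β - x) / 2)) :=
      lt_min (by linarith) (lt_min hδ (by linarith))
    have h2 : 0 < max 0 (min (x - α) (min δ ((β - x) / 2))) := lt_max_of_lt_right this
    linarith
  · have h2 : Iic (α + δ) ∈ 𝓝[Ici α] α := mem_nhdsWithin_of_mem_nhds (Iic_mem_nhds (by linarith))
    filter_upwards [h2, self_mem_nhdsWithin] with x hx hx'
    exact (Rf_val hδ hn x).2.1 hx' hx
  · have h2 : Ici (β - 2 * δ) ∈ 𝓝[Iic β] β :=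
      mem_nhdsWithin_of_mem_nhds (Ici_mem_nhds (by linarith))
    filter_upwards [h2, self_mem_nhdsWithin] with x hx hx'
    change Rf α β δ x = _
    rw [(Rf_val hδ hn x).2.2.2.1 hx hx']
    ring

end Pool.Agent.R727.Thompson
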