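import Mathlib
import Pool.Agent.R727.ThompsonPL

set_option autoImplicit false

/-!
# Boomerang subgroups of Thompson's group `F` (acting on `ℝ`)
-/

namespace Pool.Agent.R727.Thompson

open Filter Topology Set

/-! ### Germs -/

/-- `f` has slope `c` at its fixed point `p`, on the side `s`. -/
def Germ (s : Set ℝ) (p c : ℝ) (f : FR) : Prop := ∀ᶠ x in 𝓝[s] p, ap f x = p + c * (x - p)

lemma Germ.fix {s : Set ℝ} {p c : ℝ} {f : FR} (h : Germ s p c f) (hp : p ∈ s) : ap f p = p := by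
  have h1 := h.self_of_nhdsWithin hp
  rw [h1]
  ring

lemma tendsto_side {s : Set ℝ} {p : ℝ} (hs : s = Ici p ∨ s = Iic p) {f : FR} (hf : ap f p = p) :
    Tendsto (ap f) (𝓝[s] p) (𝓝[s] p) := by
  have h1 : Tendsto (ap f) (𝓝[s] p) (𝓝[s] (ap f p)) := by
    refine ((ap_cont f).continuousAt (x := p)).continuousWithinAt.tendsto_nhdsWithin ?_
    intro x hx
    rcases hs with rfl | rfl
    · have : ap f p ≤ ap f x := (ap_le f).2 hx
      rwa [hf] at this
    · have : ap f x ≤ ap f p := (ap_le f).2 hx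
      rwa [hf] at this
  rwa [hf] at h1

lemma mem_side {s : Set ℝ} {p : ℝ} (hs : s = Ici p ∨ s = Iic p) : p ∈ s := by
  rcases hs with rfl | rfl
  · exact mem_Ici.2 le_rfl
  · exact mem_Iic.2 le_rfl

lemma Germ.mul {s : Set ℝ} {p c c' : ℝ} (hs : s = Ici p ∨ s = Iic p) {f g : FR}
    (hf : Germ s p c f) (hg : Germ s p c' g) : Germ s p (c * c') (f * g) := by
  have h1 := (tendsto_side hs (hg.fix (mem_side hs))).eventually hf
  unfold Germ
  filter_upwards [hg, h1] with x hx hx'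
  rw [ap_mul, hx', hx]
  ring

lemma Germ.one {s : Set ℝ} {p : ℝ} : Germ s p 1 1 := by
  unfold Germ
  filter_upwards with x
  rw [ap_one]
  ring

lemma Germ.inv {s : Set ℝ} {p c : ℝ} (hs : s = Ici p ∨ s = Iic p) {f : FR} (hc : c ≠ 0)
    (hf : Germ s p c f) : Germ s p c⁻¹ f⁻¹ := by
  have h1 := (tendsto_side hs (ap_inv_eq (hf.fix (mem_side hs)))).eventually hf
  unfold Germ
  filter_upwards [h1] with x hx
  rw [ap_ap_inv] at hx
  have h2 : x - p = c * (ap f⁻¹ x - p) := by linarith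
  rw [h2, ← mul_assoc, inv_mul_cancel₀ hc]
  ring

lemma Germ.pow {s : Set ℝ} {p c : ℝ} (hs : s = Ici p ∨ s = Iic p) {f : FR}
    (hf : Germ s p c f) (n : ℕ) : Germ s p (c ^ n) (f ^ n) := by
  induction n with
  | zero => simpa using Germ.one
  | succ n ih =>
    rw [pow_succ, pow_succ]
    exact ih.mul hs hf

lemma Germ.zpow {s : Set ℝ} {p c : ℝ} (hs : s = Ici p ∨ s = Iic p) {f : FR} (hc : c ≠ 0)
    (hf : Germ s p c f) (n : ℤ) : Germ s p (c ^ n) (f ^ n) := by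
  rcases le_total 0 n with h | h
  · obtain ⟨m, rfl⟩ := Int.eq_ofNat_of_zero_le h
    simpa using hf.pow hs m
  · obtain ⟨m, hm⟩ := Int.eq_ofNat_of_zero_le (neg_nonneg.2 h)
    have hn : n = -(m : ℤ) := by omega
    rw [hn, zpow_neg, zpow_neg, zpow_natCast, zpow_natCast]
    exact (hf.pow hs m).inv hs (pow_ne_zero m hc)

lemma exists_gap (S : Finset ℝ) (p : ℝ) :
    ∃ ε > 0, ∀ x, |x - p| < ε → x ≠ p → x ∉ S := by
  classical
  have h1 : ((S.erase p : Finset ℝ) : Set ℝ)ᶜ ∈ 𝓝 p :=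
    (S.erase p).finite_toSet.isClosed.isOpen_compl.mem_nhds (by simp)
  obtain ⟨ε, hε, h2⟩ := Metric.mem_nhds_iff.1 h1
  refine ⟨ε, hε, fun x hx hxp hxS => ?_⟩
  have h3 : x ∈ Metric.ball p ε := by rwa [Metric.mem_ball, Real.dist_eq]
  exact h2 h3 (by simp [hxp, hxS])

lemma exists_germ_right (f : FR) {p : ℝ} (hp : ap f p = p) :
    ∃ k : ℤ, Germ (Ici p) p ((2 : ℝ) ^ k) f := by
  obtain ⟨S, -, h⟩ := f.2.pl
  obtain ⟨ε, hε, h1⟩ := exists_gap S p
  obtain ⟨k, hk⟩ := affine_Icc (ap_cont f) (show p < p + ε by linarith) (fun t ht => by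
    refine h t (h1 t ?_ ht.1.ne')
    rw [abs_lt]
    constructor <;> linarith [ht.1, ht.2])
  refine ⟨k, ?_⟩
  have h2 : Iic (p + ε) ∈ 𝓝[Ici p] p := mem_nhdsWithin_of_mem_nhds (Iic_mem_nhds (by linarith))
  unfold Germ
  filter_upwards [h2, self_mem_nhdsWithin] with x hx hx'
  have h3 := hk p ⟨le_refl _, by linarith⟩ x ⟨hx', hx⟩
  rwa [hp] at h3

lemma exists_germ_left (f : FR) {p : ℝ} (hp : ap f p = p) :
    ∃ k : ℤ, Germ (Iic p) p ((2 : ℝ) ^ k) f := by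
  obtain ⟨S, -, h⟩ := f.2.pl
  obtain ⟨ε, hε, h1⟩ := exists_gap S p
  obtain ⟨k, hk⟩ := affine_Icc (ap_cont f) (show p - ε < p by linarith) (fun t ht => by
    refine h t (h1 t ?_ ht.2.ne)
    rw [abs_lt]
    constructor <;> linarith [ht.1, ht.2])
  refine ⟨k, ?_⟩
  have h2 : Ici (p - ε) ∈ 𝓝[Iic p] p := mem_nhdsWithin_of_mem_nhds (Ici_mem_nhds (by linarith))
  unfold Germ
  filter_upwards [h2, self_mem_nhdsWithin] with x hx hx'
  have h3 := hk p ⟨by linarith, le_refl _⟩ x ⟨hx, hx'⟩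
  rwa [hp] at h3

lemma right_nhds {p : ℝ} {P : ℝ → Prop} (h : ∀ᶠ x in 𝓝[Ici p] p, P x) :
    ∃ ε > 0, ∀ x, p ≤ x → x < p + ε → P x := by
  rw [eventually_nhdsWithin_iff] at h
  obtain ⟨ε, hε, h1⟩ := Metric.eventually_nhds_iff.1 h
  refine ⟨ε, hε, fun x hx hx' => h1 ?_ hx⟩
  rw [Real.dist_eq, abs_lt]
  constructor <;> linarith

lemma left_nhds {p : ℝ} {P : ℝ → Prop} (h : ∀ᶠ x in 𝓝[Iic p] p, P x) :
    ∃ ε > 0, ∀ x, x ≤ p → p - ε < x → P x := by
  rw [eventually_nhdsWithin_iff] at h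
  obtain ⟨ε, hε, h1⟩ := Metric.eventually_nhds_iff.1 h
  refine ⟨ε, hε, fun x hx hx' => h1 ?_ hx⟩
  rw [Real.dist_eq, abs_lt]
  constructor <;> linarith

/-! ### Dynamics -/

lemma dyn_down (g : FR) {p s v ε : ℝ} (h : ∀ x, p < x → x < s → ap g x < x) (hp : ap g p = p)
    (hv : p < v) (hvs : v < s) (hε : 0 < ε) :
    ∃ M : ℕ, ∀ m ≥ M, p < ap (g ^ m) v ∧ ap (g ^ m) v < p + ε := by
  have hpos : ∀ m : ℕ, p < ap (g ^ m) v := by
    intro m
    have := (ap_lt (g ^ m)).2 hv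
    rwa [ap_pow_eq hp] at this
  have hanti : ∀ m : ℕ, ap (g ^ (m + 1)) v < ap (g ^ m) v ∧ ap (g ^ m) v ≤ v := by
    intro m
    induction m with
    | zero =>
      refine ⟨?_, by simp⟩
      simpa using h v hv hvs
    | succ m ih =>
      refine ⟨?_, ih.1.le.trans ih.2⟩
      rw [pow_succ' g (m + 1), ap_mul]
      exact h _ (hpos _) ((ih.1.le.trans ih.2).trans_lt hvs)
  have hA : Antitone fun m : ℕ => ap (g ^ m) v := antitone_nat_of_succ_le fun m => (hanti m).1.le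
  let T : Set ℝ := Set.range fun m : ℕ => ap (g ^ m) v
  have hT : T.Nonempty := ⟨_, 0, rfl⟩
  have hbd : BddBelow T := ⟨p, by rintro _ ⟨m, rfl⟩; exact (hpos m).le⟩
  have hL : p ≤ sInf T := le_csInf hT (by rintro _ ⟨m, rfl⟩; exact (hpos m).le)
  have hLp : sInf T = p := by
    by_contra hne
    have hlt : p < sInf T := lt_of_le_of_ne hL (Ne.symm hne)
    have hLs : sInf T < s := (csInf_le hbd ⟨0, rfl⟩).trans_lt (by simpa using hvs)
    have h1 := h _ hlt hLs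
    have h2 : sInf T < ap g⁻¹ (sInf T) := by
      rw [← ap_lt g, ap_ap_inv]
      exact h1
    obtain ⟨_, ⟨m, rfl⟩, hm⟩ := exists_lt_of_csInf_lt hT h2
    have h3 : ap (g ^ (m + 1)) v < sInf T := by
      rw [pow_succ', ap_mul]
      have := (ap_lt g).2 hm
      rwa [ap_ap_inv] at this
    exact absurd (csInf_le hbd ⟨m + 1, rfl⟩) (not_le.2 h3)
  obtain ⟨_, ⟨M, rfl⟩, hM⟩ := exists_lt_of_csInf_lt hT (show sInf T < p + ε by rw [hLp]; linarith)
  exact ⟨M, fun m hm => ⟨hpos m, (hA hm).trans_lt hM⟩⟩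

lemma dyn_up (g : FR) {p s v ε : ℝ} (h : ∀ x, s < x → x < p → x < ap g x) (hp : ap g p = p)
    (hv : v < p) (hvs : s < v) (hε : 0 < ε) :
    ∃ M : ℕ, ∀ m ≥ M, p - ε < ap (g ^ m) v ∧ ap (g ^ m) v < p := by
  have hpos : ∀ m : ℕ, ap (g ^ m) v < p := by
    intro m
    have := (ap_lt (g ^ m)).2 hv
    rwa [ap_pow_eq hp] at this
  have hmono : ∀ m : ℕ, ap (g ^ m) v < ap (g ^ (m + 1)) v ∧ v ≤ ap (g ^ m) v := by
    intro m
    induction m with
    | zero =>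
      refine ⟨?_, by simp⟩
      simpa using h v hvs hv
    | succ m ih =>
      refine ⟨?_, ih.2.trans ih.1.le⟩
      rw [pow_succ' g (m + 1), ap_mul]
      exact h _ (hvs.trans_le (ih.2.trans ih.1.le)) (hpos _)
  have hA : Monotone fun m : ℕ => ap (g ^ m) v := monotone_nat_of_le_succ fun m => (hmono m).1.le
  let T : Set ℝ := Set.range fun m : ℕ => ap (g ^ m) v
  have hT : T.Nonempty := ⟨_, 0, rfl⟩
  have hbd : BddAbove T := ⟨p, by rintro _ ⟨m, rfl⟩; exact (hpos m).le⟩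
  have hL : sSup T ≤ p := csSup_le hT (by rintro _ ⟨m, rfl⟩; exact (hpos m).le)
  have hLp : sSup T = p := by
    by_contra hne
    have hlt : sSup T < p := lt_of_le_of_ne hL hne
    have hLs : s < sSup T := lt_of_lt_of_le (by simpa using hvs) (le_csSup hbd ⟨0, rfl⟩)
    have h1 := h _ hLs hlt
    have h2 : ap g⁻¹ (sSup T) < sSup T := by
      rw [← ap_lt g, ap_ap_inv]
      exact h1
    obtain ⟨_, ⟨m, rfl⟩, hm⟩ := exists_lt_of_lt_csSup hT h2
    have h3 : sSup T < ap (g ^ (m + 1)) v := by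
      rw [pow_succ', ap_mul]
      have := (ap_lt g).2 hm
      rwa [ap_ap_inv] at this
    exact absurd (le_csSup hbd ⟨m + 1, rfl⟩) (not_le.2 h3)
  obtain ⟨_, ⟨M, rfl⟩, hM⟩ := exists_lt_of_lt_csSup hT (show p - ε < sSup T by rw [hLp]; linarith)
  exact ⟨M, fun m hm => ⟨hM.trans_le (hA hm), hpos m⟩⟩

/-! ### Supports -/

/-- The support of `f` is contained in `(u, v)`. -/
def Sup (f : FR) (u v : ℝ) : Prop := ∀ x, x ≤ u ∨ v ≤ x → ap f x = x

lemma Sup.inv {f : FR} {u v : ℝ} (h : Sup f u v) : Sup f⁻¹ u v := fun x hx => ap_inv_eq (h x hx)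

lemma Sup.mul {f g : FR} {u v : ℝ} (h : Sup f u v) (h' : Sup g u v) : Sup (f * g) u v :=
  fun x hx => by rw [ap_mul, h' x hx, h x hx]

lemma Sup.mono {f : FR} {u v u' v' : ℝ} (h : Sup f u v) (hu : u' ≤ u) (hv : v ≤ v') :
    Sup f u' v' := fun x hx => h x (hx.imp (fun h => h.trans hu) (fun h => hv.trans h))

lemma Sup.conj {f : FR} {u v : ℝ} (h : Sup f u v) (θ : FR) :
    Sup (θ * f * θ⁻¹) (ap θ u) (ap θ v) := by
  intro x hx
  have h1 : ap θ⁻¹ x ≤ u ∨ v ≤ ap θ⁻¹ x := by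
    rcases hx with hx | hx
    · left
      rwa [← ap_le θ, ap_ap_inv]
    · right
      rwa [← ap_le θ, ap_ap_inv]
  rw [ap_mul, ap_mul, h _ h1, ap_ap_inv]

lemma Sup.mem {f : FR} {u v x : ℝ} (h : Sup f u v) (hx : ap f x ≠ x) : u < x ∧ x < v := by
  constructor
  · by_contra h1
    exact hx (h x (Or.inl (not_lt.1 h1)))
  · by_contra h1
    exact hx (h x (Or.inr (not_lt.1 h1)))

lemma Sup.commute {f g : FR} {u v u' v' : ℝ} (h : Sup f u v) (h' : Sup g u' v') (hv : v ≤ u') :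
    Commute f g := by
  apply commute_of_disjoint
  intro x
  rcases le_total x u' with hx | hx
  · exact Or.inr (h' x (Or.inl hx))
  · exact Or.inl (h x (Or.inr (hv.trans hx)))

end Pool.Agent.R727.Thompson
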