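import Mathlib
import Pool.Agent.R727.ThompsonBoom

set_option autoImplicit false

/-!
# Boomerang subgroups of Thompson's group `F` contain the commutator subgroup
-/

namespace Pool.Agent.R727.Thompson

open Filter Topology Set
open scoped commutatorElement

/-- The consequence of the boomerang property which is used: sets `A = {c}`, `B = {g}` and
`A = {c}`, `B = ∅`. -/
structure Boom (Δ : Subgroup FR) : Prop where
  two : ∀ γ : FR, ∀ c ∈ Δ, ∀ g ∉ Δ, ∃ n : ℕ, 1 ≤ n ∧ (γ ^ n)⁻¹ * c * γ ^ n ∈ Δ ∧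
    (γ ^ n)⁻¹ * g * γ ^ n ∉ Δ
  one : ∀ γ : FR, ∀ c ∈ Δ, ∃ n : ℕ, 1 ≤ n ∧ (γ ^ n)⁻¹ * c * γ ^ n ∈ Δ

lemma conj_mem1 {Δ : Subgroup FR} (hB : Boom Δ) {a c q : FR} (ha : a ∈ Δ) (hc : c ∈ Δ) {M : ℕ}
    (h : ∀ m ≥ M, ∀ x, ap c x ≠ x → ap a (ap (q ^ m)⁻¹ x) = ap q (ap (q ^ m)⁻¹ x)) :
    q * c * q⁻¹ ∈ Δ := by
  by_contra hg
  obtain ⟨n, hn, h1, h2⟩ := hB.two (q ^ M) c hc _ hg
  apply h2
  rw [← pow_mul] at h1 ⊢
  have hm : M ≤ M * n := Nat.le_mul_of_pos_right M hn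
  have e1 : (q ^ (M * n) * a * (q ^ (M * n))⁻¹) * c * (q ^ (M * n) * a * (q ^ (M * n))⁻¹)⁻¹
      = q * c * q⁻¹ := by
    apply conj_eq
    intro x hx
    rw [ap_mul, ap_mul, h _ hm x hx, ← ap_mul, ← ap_mul]
    congr 1
    rw [← pow_succ, pow_succ']
    group
  rw [← e1]
  have e2 : (q ^ (M * n))⁻¹ * ((q ^ (M * n) * a * (q ^ (M * n))⁻¹) * c *
      (q ^ (M * n) * a * (q ^ (M * n))⁻¹)⁻¹) * q ^ (M * n) =
      a * ((q ^ (M * n))⁻¹ * c * q ^ (M * n)) * a⁻¹ := by group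
  rw [e2]
  exact Δ.mul_mem (Δ.mul_mem ha h1) (Δ.inv_mem ha)

lemma conj_mem2 {Δ : Subgroup FR} (hB : Boom Δ) {a c q : FR} (ha : a ∈ Δ) (hc : c ∈ Δ) {M : ℕ}
    (h : ∀ m ≥ M, ∀ x, ap c x ≠ x → ap a (ap (q ^ m)⁻¹ x) = ap q (ap (q ^ m)⁻¹ x)) :
    q⁻¹ * c * q ∈ Δ := by
  by_contra hg
  obtain ⟨n, hn, h1, h2⟩ := hB.two (q ^ M) c hc _ hg
  apply h2
  rw [← pow_mul] at h1 ⊢
  have hm : M ≤ M * n + 1 := (Nat.le_mul_of_pos_right M hn).trans (Nat.le_succ _)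
  have e1 : (q ^ (M * n) * a⁻¹ * (q ^ (M * n))⁻¹) * c * (q ^ (M * n) * a⁻¹ * (q ^ (M * n))⁻¹)⁻¹
      = q⁻¹ * c * q⁻¹⁻¹ := by
    apply conj_eq
    intro x hx
    have h3 := h _ hm x hx
    have h4 : ap q (ap (q ^ (M * n + 1))⁻¹ x) = ap (q ^ (M * n))⁻¹ x := by
      rw [← ap_mul]
      congr 1
      rw [pow_succ, mul_inv_rev, ← mul_assoc, mul_inv_cancel, one_mul]
    rw [h4] at h3
    have h5 : ap a⁻¹ (ap (q ^ (M * n))⁻¹ x) = ap (q ^ (M * n + 1))⁻¹ x := by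
      rw [← h3, ap_inv_ap]
    rw [ap_mul, ap_mul, h5, ← ap_mul]
    congr 1
    rw [pow_succ', mul_inv_rev, ← mul_assoc, mul_inv_cancel, one_mul]
  rw [inv_inv] at e1
  rw [← e1]
  have e2 : (q ^ (M * n))⁻¹ * ((q ^ (M * n) * a⁻¹ * (q ^ (M * n))⁻¹) * c *
      (q ^ (M * n) * a⁻¹ * (q ^ (M * n))⁻¹)⁻¹) * q ^ (M * n) =
      a⁻¹ * ((q ^ (M * n))⁻¹ * c * q ^ (M * n)) * a := by group
  rw [e2]
  exact Δ.mul_mem (Δ.mul_mem (Δ.inv_mem ha) h1) ha

/-- The situation after the first step: an element `a` of `Δ` with a non-trivial right germ at the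
dyadic point `p`. -/
structure Setup (Δ : Subgroup FR) (a : FR) (p : ℝ) (k : ℕ) (γ : FR) : Prop where
  boom : Boom Δ
  ha : a ∈ Δ
  dy : IsDyadic p
  p0 : 0 ≤ p
  p1 : p < 1
  k1 : 1 ≤ k
  germ : Germ (Ici p) p ((2 : ℝ) ^ k) a
  germ' : Germ (Ici p) p ((2 : ℝ) ^ k) γ
  fixp : ap γ p = p
  left : ∀ x, x ≤ p → ap γ x = x
  move : ∀ x, p < x → x < 1 → x < ap γ x

variable {Δ : Subgroup FR} {a γ : FR} {p : ℝ} {k : ℕ}

lemma Setup.germ_pow (S : Setup Δ a p k γ) (r : ℕ) :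
    ∃ ε > 0, ∀ x, p ≤ x → x < p + ε → ap (a ^ r) x = ap (γ ^ r) x := by
  have h1 := S.germ.pow (Or.inl rfl) r
  have h2 := S.germ'.pow (Or.inl rfl) r
  obtain ⟨ε, hε, h3⟩ := right_nhds (h1.and h2)
  exact ⟨ε, hε, fun x hx hx' => (h3 x hx hx').1.trans (h3 x hx hx').2.symm⟩

lemma Setup.inv_lt (S : Setup Δ a p k γ) (x : ℝ) (hx : p < x) (hx' : x < 1) :
    ap γ⁻¹ x < x := by
  rw [← ap_lt γ, ap_ap_inv]
  exact S.move x hx hx'

lemma Setup.dyn (S : Setup Δ a p k γ) {v ε : ℝ} (hv : p < v) (hv' : v < 1) (hε : 0 < ε) :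
    ∃ M : ℕ, ∀ m ≥ M, p < ap (γ ^ m)⁻¹ v ∧ ap (γ ^ m)⁻¹ v < p + ε := by
  obtain ⟨M, hM⟩ := dyn_down γ⁻¹ S.inv_lt (ap_inv_eq S.fixp) hv hv' hε
  refine ⟨M, fun m hm => ?_⟩
  rw [← inv_pow]
  exact hM m hm

lemma Setup.inv_pow_le (S : Setup Δ a p k γ) (x : ℝ) (hx : p < x) (hx' : x < 1) (n : ℕ) :
    p < ap (γ ^ n)⁻¹ x ∧ ap (γ ^ n)⁻¹ x ≤ x := by
  induction n with
  | zero => simpa using hx
  | succ n ih =>
    rw [← inv_pow, pow_succ', ap_mul, inv_pow]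
    constructor
    · have := (ap_lt γ⁻¹).2 ih.1
      rwa [ap_inv_eq S.fixp] at this
    · exact (S.inv_lt _ ih.1 (ih.2.trans_lt hx')).le.trans ih.2

/-- Conjugation by powers of `γ`. -/
lemma Setup.conj_pow (S : Setup Δ a p k γ) {c : FR} (hc : c ∈ Δ) {u v : ℝ} (hs : Sup c u v)
    (hu : p < u) (huv : u < v) (hv : v < 1) (r : ℕ) (hr : 1 ≤ r) :
    (γ ^ r)⁻¹ * c * γ ^ r ∈ Δ := by
  obtain ⟨ε, hε, h1⟩ := S.germ_pow r
  obtain ⟨M, hM⟩ := S.dyn (hu.trans huv) hv hε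
  refine conj_mem2 S.boom (Δ.pow_mem S.ha r) hc (M := M) (fun m hm x hx => ?_)
  obtain ⟨hx1, hx2⟩ := hs.mem hx
  rw [← pow_mul]
  have hm' : M ≤ r * m := hm.trans (Nat.le_mul_of_pos_left m hr)
  apply h1
  · exact (S.inv_pow_le x (hu.trans hx1) (hx2.trans hv) _).1.le
  · exact ((ap_lt _).2 hx2).trans (hM _ hm').2

/-- `Δ` is normalized by the elements with compact support in `(p, 1)`, as far as elements with
compact support in `(p, 1)` are concerned. -/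
lemma Setup.conj_theta (S : Setup Δ a p k γ) {c θ : FR} (hc : c ∈ Δ) {u v u' v' : ℝ}
    (hs : Sup c u v) (hu : p < u) (huv : u < v) (hv : v < 1)
    (hs' : Sup θ u' v') (hu' : p < u') (huv' : u' < v') (hv' : v' < 1) :
    θ * c * θ⁻¹ ∈ Δ := by
  obtain ⟨M0, hM0⟩ := S.dyn (hu.trans huv) hv (show 0 < u' - p by linarith)
  obtain ⟨r, hr1, hr2⟩ : ∃ r : ℕ, M0 ≤ r ∧ 1 ≤ r := ⟨max M0 1, le_max_left _ _, le_max_right _ _⟩
  have hr3 := (hM0 r hr1).2
  rw [add_sub_cancel] at hr3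
  set cr : FR := (γ ^ r)⁻¹ * c * γ ^ r with hcr
  have hcrΔ : cr ∈ Δ := S.conj_pow hc hs hu huv hv r hr2
  have hscr : Sup cr (ap (γ ^ r)⁻¹ u) (ap (γ ^ r)⁻¹ v) := by
    have := hs.conj (γ ^ r)⁻¹
    rwa [inv_inv] at this
  have hcomm : Commute cr θ := hscr.commute hs' hr3.le
  obtain ⟨ε, hε, h1⟩ := S.germ_pow r
  -- the bound for `y`
  have hb : p < ap (γ ^ r)⁻¹ u' := (S.inv_pow_le u' hu' (huv'.trans hv') r).1
  obtain ⟨M, hM⟩ := S.dyn (hu.trans huv) hv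
    (show 0 < min ε (ap (γ ^ r)⁻¹ u' - p) from lt_min hε (by linarith))
  have key : (θ * γ ^ r * θ⁻¹) * cr * (θ * γ ^ r * θ⁻¹)⁻¹ ∈ Δ := by
    refine conj_mem1 S.boom (Δ.pow_mem S.ha r) hcrΔ (M := M) (fun m hm x hx => ?_)
    obtain ⟨hx1, hx2⟩ := hscr.mem hx
    have hxp : p < x := ((S.inv_pow_le u hu (huv.trans hv) r).1).trans hx1
    have hxv : x < v := hx2.trans_le (S.inv_pow_le v (hu.trans huv) hv r).2
    have hx1' : x < 1 := hxv.trans hv
    have hxu' : x < u' := hx2.trans hr3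
    have hθ : ∀ y, y < u' → ap θ y = y := fun y hy => hs' y (Or.inl hy.le)
    have hθi : ∀ y, y < u' → ap θ⁻¹ y = y := fun y hy => ap_inv_eq (hθ y hy)
    have hm' : M ≤ r * m := hm.trans (Nat.le_mul_of_pos_left m hr2)
    set y : ℝ := ap (γ ^ (r * m))⁻¹ x with hy
    have hy1 := S.inv_pow_le x hxp hx1' (r * m)
    have hy2 : y < p + min ε (ap (γ ^ r)⁻¹ u' - p) :=
      ((ap_lt _).2 hxv).trans (hM _ hm').2
    have hyu' : y < u' := hy1.2.trans_lt hxu'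
    have e1 : (θ * γ ^ r * θ⁻¹) ^ m = θ * γ ^ (r * m) * θ⁻¹ := by
      rw [_root_.conj_pow, pow_mul]
    have e2 : ap ((θ * γ ^ r * θ⁻¹) ^ m)⁻¹ x = y := by
      rw [e1]
      have e3 : (θ * γ ^ (r * m) * θ⁻¹)⁻¹ = θ * (γ ^ (r * m))⁻¹ * θ⁻¹ := by group
      rw [e3, ap_mul, ap_mul, hθi x hxu', ← hy, hθ y hyu']
    rw [e2, ap_mul, ap_mul, hθi y hyu', h1 y hy1.1.le (hy2.trans_le (by
      linarith [min_le_left ε (ap (γ ^ r)⁻¹ u' - p)]))]
    symm
    apply hθ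
    have h5 : y < ap (γ ^ r)⁻¹ u' := hy2.trans_le (by
      linarith [min_le_right ε (ap (γ ^ r)⁻¹ u' - p)])
    have h6 := (ap_lt (γ ^ r)).2 h5
    rwa [ap_ap_inv] at h6
  have e4 : (θ * γ ^ r * θ⁻¹) * cr * (θ * γ ^ r * θ⁻¹)⁻¹ = θ * c * θ⁻¹ := by
    have h7 : θ⁻¹ * cr * θ = cr := by
      rw [mul_assoc, hcomm.eq, ← mul_assoc, inv_mul_cancel, one_mul]
    calc (θ * γ ^ r * θ⁻¹) * cr * (θ * γ ^ r * θ⁻¹)⁻¹
        = θ * γ ^ r * (θ⁻¹ * cr * θ) * (γ ^ r)⁻¹ * θ⁻¹ := by group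
      _ = θ * γ ^ r * cr * (γ ^ r)⁻¹ * θ⁻¹ := by rw [h7]
      _ = θ * c * θ⁻¹ := by rw [hcr]; group
  rwa [e4] at key

lemma exists_dyadic_pow {ε : ℝ} (hε : 0 < ε) : ∃ t : ℝ, IsDyadic t ∧ 0 < t ∧ t < ε := by
  obtain ⟨n, hn⟩ := exists_pow_lt_of_lt_one hε (show (1 / 2 : ℝ) < 1 by norm_num)
  refine ⟨(1 / 2 : ℝ) ^ n, ⟨1, n, by push_cast; rw [one_div_pow]⟩, by positivity, hn⟩

lemma exists_dyadic_between {x y : ℝ} (h : x < y) : ∃ t : ℝ, IsDyadic t ∧ x < t ∧ t < y := by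
  obtain ⟨n, hn⟩ := exists_pow_lt_of_lt_one (show 0 < y - x by linarith)
    (show (1 / 2 : ℝ) < 1 by norm_num)
  have h2 : (0 : ℝ) < 2 ^ n := by positivity
  have h3 : (1 / 2 : ℝ) ^ n * 2 ^ n = 1 := by rw [← mul_pow]; norm_num
  refine ⟨(⌊x * 2 ^ n⌋ + 1 : ℤ) / 2 ^ n, ⟨_, n, rfl⟩, ?_, ?_⟩
  · rw [lt_div_iff₀ h2]
    push_cast
    exact Int.lt_floor_add_one _
  · rw [div_lt_iff₀ h2]
    push_cast
    have h4 := Int.floor_le (x * 2 ^ n)
    nlinarith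

/-- There is a nontrivial element of `Δ` with compact support in `(p, 1)`. -/
lemma Setup.exists_compact (S : Setup Δ a p k γ) :
    ∃ c ∈ Δ, ∃ u v x : ℝ, Sup c u v ∧ p < u ∧ u < v ∧ v < 1 ∧ ap c x ≠ x := by
  obtain ⟨ε, hε, h1⟩ := right_nhds S.germ
  have h2k : (2 : ℝ) ≤ 2 ^ k := by
    calc (2 : ℝ) = 2 ^ 1 := by norm_num
      _ ≤ 2 ^ k := pow_le_pow_right₀ (by norm_num) S.k1
  obtain ⟨t, ht, ht0, ht1⟩ := exists_dyadic_pow
    (show 0 < min (ε / 2) ((1 - p) / (2 * 2 ^ k)) from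
      lt_min (by linarith) (div_pos (by linarith [S.p1]) (by positivity)))
  have ht2 : t < ε / 2 := ht1.trans_le (min_le_left _ _)
  have ht3 : 2 ^ k * (2 * t) < 1 - p := by
    have := ht1.trans_le (min_le_right _ _)
    rw [lt_div_iff₀ (by positivity)] at this
    linarith
  have ht4 : p + 2 * t < 1 := by nlinarith
  have hdy2 : IsDyadic (p + 2 * t) := by
    have := ht.zpow_mul 1
    rw [zpow_one] at this
    exact S.dy.add this
  obtain ⟨g, hg1, hg2, hg3, -, -⟩ := exists_R (S.dy.add ht) hdy2 (by linarith [S.p0])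
    (by linarith) ht4.le
  obtain ⟨n, hn, hmem⟩ := S.boom.one g a S.ha
  have hap : ap a p = p := S.germ.fix (mem_Ici.2 le_rfl)
  have hau : ap a (p + t) = p + 2 ^ k * t := by
    rw [h1 (p + t) (by linarith) (by linarith)]
    ring
  have hav : ap a (p + 2 * t) = p + 2 ^ k * (2 * t) := by
    rw [h1 (p + 2 * t) (by linarith) (by linarith)]
    ring
  have hai : ap a⁻¹ (p + 2 * t) ≤ p + t := by
    rw [← ap_le a, ap_ap_inv, hau]
    nlinarith
  have hgf : Sup g (p + t) (p + 2 * t) := by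
    intro x hx
    rcases hx with hx | hx
    · exact hg1 x hx
    · exact hg2 x hx
  have hgn : Sup (g ^ n) (p + t) (p + 2 * t) := fun x hx => ap_pow_eq (hgf x hx) n
  refine ⟨(g ^ n)⁻¹ * a * g ^ n * a⁻¹, Δ.mul_mem hmem (Δ.inv_mem S.ha), p + t,
    ap a (p + 2 * t), p + 3 / 2 * t, ?_, by linarith, ?_, ?_, ?_⟩
  · intro x hx
    rcases hx with hx | hx
    · have h3 : ap a⁻¹ x ≤ p + t := by
        rw [← ap_le a, ap_ap_inv, hau]
        nlinarith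
      rw [ap_mul, ap_mul, ap_mul, hgn _ (Or.inl h3), ap_ap_inv, hgn.inv _ (Or.inl hx)]
    · have h3 : p + 2 * t ≤ ap a⁻¹ x := by
        rwa [← ap_le a, ap_ap_inv]
      have h4 : p + 2 * t ≤ x := by
        rw [hav] at hx
        nlinarith
      rw [ap_mul, ap_mul, ap_mul, hgn _ (Or.inr h3), ap_ap_inv, hgn.inv _ (Or.inr h4)]
  · rw [hav]
    nlinarith
  · rw [hav]
    linarith
  · set x : ℝ := p + 3 / 2 * t with hx
    have h3 : ap a⁻¹ x ≤ p + t := by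
      have : ap a⁻¹ x ≤ ap a⁻¹ (p + 2 * t) := (ap_le _).2 (by rw [hx]; linarith)
      exact this.trans hai
    rw [ap_mul, ap_mul, ap_mul, hgn _ (Or.inl h3), ap_ap_inv]
    -- powers of `g` move `x`
    have h4 : ∀ m : ℕ, 1 ≤ m → x < ap (g ^ m) x ∧ ap (g ^ m) x < p + 2 * t := by
      intro m hm
      induction m, hm using Nat.le_induction with
      | base =>
        rw [pow_one]
        refine ⟨hg3 x (by linarith) (by linarith), ?_⟩
        have := (ap_lt g).2 (show x < p + 2 * t by linarith)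
        rwa [hg2 _ le_rfl] at this
      | succ m hm ih =>
        rw [pow_succ', ap_mul]
        refine ⟨ih.1.trans (hg3 _ (by linarith [ih.1]) ih.2), ?_⟩
        have := (ap_lt g).2 ih.2
        rwa [hg2 _ le_rfl] at this
    intro h5
    have h6 := congrArg (ap (g ^ n)) h5
    rw [ap_ap_inv] at h6
    linarith [(h4 n hn).1]

/-- Commutators of elements supported in a suitable interval. -/
lemma Setup.exists_interval (S : Setup Δ a p k γ) :
    ∃ x y : ℝ, p < x ∧ x < y ∧ y < 1 ∧ ∀ j1 j2 : ℝ, x < j1 → j1 < j2 → j2 < y →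
      ∀ g1 g2 : FR, Sup g1 j1 j2 → Sup g2 j1 j2 → ⁅g1, g2⁆ ∈ Δ := by
  obtain ⟨c, hc, u, v, x, hs, hu, huv, hv, hx⟩ := S.exists_compact
  -- an element with `c x > x`
  obtain ⟨c, hc, hs, hx⟩ : ∃ c ∈ Δ, Sup c u v ∧ x < ap c x := by
    rcases lt_or_gt_of_ne hx with h | h
    · refine ⟨c⁻¹, Δ.inv_mem hc, hs.inv, ?_⟩
      rw [← ap_lt c, ap_ap_inv]
      exact h
    · exact ⟨c, hc, hs, h⟩
  obtain ⟨hx1, hx2⟩ := hs.mem hx.ne'
  have hy1 : ap c x < v := by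
    have := (ap_lt c).2 hx2
    rwa [hs v (Or.inr le_rfl)] at this
  refine ⟨x, ap c x, hu.trans hx1, hx, hy1.trans hv, ?_⟩
  intro j1 j2 h1 h2 h3 g1 g2 hg1 hg2
  have hj1 : p < j1 := (hu.trans hx1).trans h1
  have hj2 : j2 < 1 := (h3.trans hy1).trans hv
  have m1 : g1 * c * g1⁻¹ ∈ Δ := S.conj_theta hc hs hu huv hv hg1 hj1 h2 hj2
  set w : FR := c * g1⁻¹ * c⁻¹ with hw
  have hsw : Sup w (ap c j1) (ap c j2) := hg1.inv.conj c
  have hcj1 : j2 < ap c j1 := h3.trans ((ap_lt c).2 h1)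
  have hcj2 : ap c j2 < 1 := by
    have := (ap_lt c).2 ((h3.trans hy1).trans_le (le_refl v))
    rw [hs v (Or.inr le_rfl)] at this
    linarith
  have hcomm : Commute g2 w := hg2.commute hsw hcj1.le
  have m2 : g1 * w ∈ Δ := by
    have : g1 * w = g1 * c * g1⁻¹ * c⁻¹ := by rw [hw]; group
    rw [this]
    exact Δ.mul_mem m1 (Δ.inv_mem hc)
  have hlt : j1 < ap c j2 := (h2.trans hcj1).trans ((ap_lt c).2 h2)
  have hs2 : Sup (g1 * w) j1 (ap c j2) := by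
    refine (hg1.mono le_rfl ?_).mul (hsw.mono ?_ le_rfl)
    · exact (hcj1.trans ((ap_lt c).2 h2)).le
    · exact (h2.trans hcj1).le
  have m3 : g2 * (g1 * w) * g2⁻¹ ∈ Δ := S.conj_theta m2 hs2 hj1 hlt hcj2 hg2 hj1 h2 hj2
  have e : ⁅g1, g2⁆ = (g1 * w) * (g2 * (g1 * w) * g2⁻¹)⁻¹ := by
    have h4 : w * g2 = g2 * w := hcomm.eq.symm
    rw [commutatorElement_def]
    calc g1 * g2 * g1⁻¹ * g2⁻¹ = g1 * (g2 * w) * w⁻¹ * g1⁻¹ * g2⁻¹ := by group
      _ = g1 * (w * g2) * w⁻¹ * g1⁻¹ * g2⁻¹ := by rw [h4]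
      _ = (g1 * w) * (g2 * (g1 * w) * g2⁻¹)⁻¹ := by group
  rw [e]
  exact Δ.mul_mem m2 (Δ.inv_mem m3)

/-- Commutators of elements with compact support in `(0, 1)`. -/
lemma Setup.commutator_mem (S : Setup Δ a p k γ) {f1 f2 : FR} {κ1 κ2 : ℝ} (h1 : Sup f1 κ1 κ2)
    (h2 : Sup f2 κ1 κ2) (hκ1 : 0 < κ1) (hκ2 : κ2 < 1) : ⁅f1, f2⁆ ∈ Δ := by
  obtain ⟨x, y, hx, hxy, hy, hI⟩ := S.exists_interval
  obtain ⟨s, hsd, hs1, hs2⟩ := exists_dyadic_between hxy
  have hs0 : 0 < s := (S.p0.trans_lt hx).trans hs1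
  have hs3 : s < 1 := hs2.trans hy
  obtain ⟨R1, a1, a2, a3, -, -⟩ := exists_R IsDyadic.zero hsd le_rfl hs0 hs3.le
  obtain ⟨R2, b1, b2, b3, -, -⟩ := exists_R hsd IsDyadic.one hs0.le hs3 le_rfl
  have hR1 : Sup R1 0 s := fun x hx => hx.elim (a1 x) (a2 x)
  have hR2 : Sup R2 s 1 := fun x hx => hx.elim (b1 x) (b2 x)
  have hcomm : Commute R1 R2⁻¹ := (hR1.commute hR2 le_rfl).inv_right
  -- enlarge the interval
  set l1 : ℝ := min κ1 (s / 2) with hl1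
  set l2 : ℝ := max κ2 ((s + 1) / 2) with hl2
  have hl10 : 0 < l1 := lt_min hκ1 (by linarith)
  have hl1s : l1 < s := (min_le_right _ _).trans_lt (by linarith)
  have hl21 : l2 < 1 := max_lt hκ2 (by linarith)
  have hl2s : s < l2 := lt_of_lt_of_le (by linarith) (le_max_right _ _)
  obtain ⟨N1, hN1⟩ := dyn_up R1 (s := 0) (p := s) (v := l1) (ε := (s - x) / 2) a3
    (a2 s le_rfl) hl1s hl10 (by linarith)
  obtain ⟨N2, hN2⟩ := dyn_down R2⁻¹ (s := 1) (p := s) (v := l2) (ε := (y - s) / 2)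
    (fun z hz hz' => by
      rw [← ap_lt R2, ap_ap_inv]
      exact b3 z hz hz') (ap_inv_eq (b1 s le_rfl)) hl2s hl21 (by linarith)
  set m : FR := R1 * R2⁻¹ with hm
  have hmn : ∀ n : ℕ, m ^ n = R1 ^ n * R2⁻¹ ^ n := fun n => hcomm.mul_pow n
  have hmn' : ∀ n : ℕ, m ^ n = R2⁻¹ ^ n * R1 ^ n := fun n => by
    rw [hmn n, (hcomm.pow_pow n n).eq]
  have e1 : ∀ n, ap (m ^ n) l1 = ap (R1 ^ n) l1 := by
    intro n
    rw [hmn, ap_mul, ap_pow_eq (hR2.inv l1 (Or.inl hl1s.le))]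
  have e2 : ∀ n, ap (m ^ n) l2 = ap (R2⁻¹ ^ n) l2 := by
    intro n
    rw [hmn', ap_mul, ap_pow_eq (hR1 l2 (Or.inr hl2s.le))]
  by_contra hg
  obtain ⟨N, hNa, hNb, hNc⟩ : ∃ N : ℕ, N1 ≤ N ∧ N2 ≤ N ∧ 1 ≤ N :=
    ⟨max N1 (max N2 1), le_max_left _ _, (le_max_left _ _).trans (le_max_right _ _),
      (le_max_right _ _).trans (le_max_right _ _)⟩
  obtain ⟨n, hn, -, hn2⟩ := S.boom.two (m ^ N)⁻¹ 1 Δ.one_mem _ hg
  apply hn2
  have hle : N ≤ N * n := Nat.le_mul_of_pos_right N hn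
  have e3 : (((m ^ N)⁻¹) ^ n)⁻¹ = m ^ (N * n) := by rw [inv_pow, inv_inv, ← pow_mul]
  have e4 : ((m ^ N)⁻¹) ^ n = (m ^ (N * n))⁻¹ := by rw [← e3, inv_inv]
  rw [e3, e4]
  set θ : FR := m ^ (N * n) with hθ
  have e5 : θ * ⁅f1, f2⁆ * θ⁻¹ = ⁅θ * f1 * θ⁻¹, θ * f2 * θ⁻¹⁆ := by
    rw [commutatorElement_def, commutatorElement_def]
    group
  rw [e5]
  have c1 := hN1 (N * n) (hNa.trans hle)
  have c2 := hN2 (N * n) (hNb.trans hle)
  refine hI (x + (s - x) / 2) (s + (y - s) / 2) (by linarith) (by linarith) (by linarith)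
    _ _ ?_ ?_
  · refine ((h1.mono (min_le_left κ1 (s / 2)) (le_max_left κ2 ((s + 1) / 2))).conj θ).mono ?_ ?_
    · rw [hθ, e1]
      linarith [c1.1]
    · rw [hθ, e2]
      linarith [c2.2]
  · refine ((h2.mono (min_le_left κ1 (s / 2)) (le_max_left κ2 ((s + 1) / 2))).conj θ).mono ?_ ?_
    · rw [hθ, e1]
      linarith [c1.1]
    · rw [hθ, e2]
      linarith [c2.2]

/-! ### The first step -/

lemma pow_move {R : FR} {p : ℝ} (h : ∀ x, p < x → x < 1 → x < ap R x) (n : ℕ) (hn : 1 ≤ n)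
    (x : ℝ) (hx : p < x) (hx1 : x < 1) : x < ap (R ^ n) x ∧ ap (R ^ n) x < 1 := by
  induction n, hn using Nat.le_induction with
  | base =>
    rw [pow_one]
    refine ⟨h x hx hx1, ?_⟩
    have := (ap_lt R).2 hx1
    rwa [ap_right R le_rfl] at this
  | succ m hm ih =>
    rw [pow_succ', ap_mul]
    refine ⟨ih.1.trans (h _ (hx.trans ih.1) ih.2), ?_⟩
    have := (ap_lt R).2 ih.2
    rwa [ap_right R le_rfl] at this

lemma setup_of_germ {Δ : Subgroup FR} (hB : Boom Δ) {a : FR} (ha : a ∈ Δ) {p : ℝ}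
    (hp : IsDyadic p) (h0 : 0 ≤ p) (h1 : p < 1) {k : ℤ} (hk : 0 < k)
    (hg : Germ (Ici p) p ((2 : ℝ) ^ k) a) : ∃ a p k γ, Setup Δ a p k γ := by
  obtain ⟨n, rfl⟩ := Int.eq_ofNat_of_zero_le hk.le
  have hn : 1 ≤ n := by omega
  rw [zpow_natCast] at hg
  obtain ⟨R, r1, r2, r3, r4, -⟩ := exists_R hp IsDyadic.one h0 h1 le_rfl
  have r4' : Germ (Ici p) p 2 R := r4
  exact ⟨a, p, n, R ^ n, hB, ha, hp, h0, h1, hn, hg, r4'.pow (Or.inl rfl) n,
    ap_pow_eq (r1 p le_rfl) n, fun x hx => ap_pow_eq (r1 x hx) n,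
    fun x hx hx1 => (pow_move r3 n hn x hx hx1).1⟩

lemma exists_setup {Δ : Subgroup FR} (hB : Boom Δ) (hΔ : Δ ≠ ⊥) :
    ∃ a p k γ, Setup Δ a p k γ := by
  obtain ⟨a, ha, ha1⟩ : ∃ a ∈ Δ, a ≠ 1 := by
    by_contra h
    push Not at h
    exact hΔ ((Subgroup.eq_bot_iff_forall _).2 h)
  let T : Set ℝ := {x | ap a x ≠ x}
  have hT : T.Nonempty := by
    by_contra h
    rw [Set.not_nonempty_iff_eq_empty] at h
    apply ha1
    apply ap_ext
    intro x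
    by_contra hx
    have : x ∈ T := hx
    rw [h] at this
    exact this
  have hT0 : ∀ x ∈ T, 0 < x := by
    intro x hx
    by_contra h
    exact hx (ap_left a (not_lt.1 h))
  have hT1 : ∀ x ∈ T, x < 1 := by
    intro x hx
    by_contra h
    exact hx (ap_right a (not_lt.1 h))
  have hbd : BddBelow T := ⟨0, fun x hx => (hT0 x hx).le⟩
  set p : ℝ := sInf T with hp
  have hp0 : 0 ≤ p := le_csInf hT fun x hx => (hT0 x hx).le
  have hp1 : p < 1 := by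
    obtain ⟨x, hx⟩ := hT
    exact (csInf_le hbd hx).trans_lt (hT1 x hx)
  have hlt : ∀ x, x < p → ap a x = x := by
    intro x hx
    by_contra h
    exact absurd (csInf_le hbd h) (not_le.2 hx)
  have hfix : ap a p = p := by
    rcases lt_trichotomy (ap a p) p with h | h | h
    · obtain ⟨t, ht1, ht2⟩ := exists_between h
      have := (ap_lt a).2 ht2
      rw [hlt t ht2] at this
      linarith
    · exact h
    · obtain ⟨t, ht1, ht2⟩ := exists_between h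
      have h2 : ap a⁻¹ t < p := by
        rw [← ap_lt a, ap_ap_inv]
        exact ht2
      have h3 := hlt _ h2
      rw [ap_ap_inv] at h3
      linarith
  obtain ⟨k, hk⟩ := exists_germ_right a hfix
  obtain ⟨ε, hε, h1⟩ := right_nhds hk
  have hk0 : k ≠ 0 := by
    rintro rfl
    obtain ⟨x, hx, hx'⟩ := exists_lt_of_csInf_lt hT (show sInf T < p + ε by linarith)
    apply hx
    rw [h1 x (csInf_le hbd hx) hx']
    simp
  have hdy : IsDyadic p := by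
    by_contra hnd
    obtain ⟨S, hS, h2⟩ := a.2.pl
    obtain ⟨l, hl⟩ := h2 p (fun h => hnd (hS p h))
    obtain ⟨δ, hδ, h3⟩ := Metric.eventually_nhds_iff.1 hl
    have e1 : (2 : ℝ) ^ l = 1 := by
      have h4 : ap a (p - δ / 2) = ap a p + (2 : ℝ) ^ l * (p - δ / 2 - p) := by
        apply h3
        rw [Real.dist_eq, abs_lt]
        constructor <;> linarith
      rw [hlt _ (by linarith), hfix] at h4
      have h5 : (2 : ℝ) ^ l * (δ / 2) = δ / 2 := by linarith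
      exact mul_right_cancel₀ (show δ / 2 ≠ 0 by positivity) (by rw [h5, one_mul])
    set m : ℝ := min δ ε / 2 with hm
    have hm0 : 0 < m := by
      rw [hm]
      have := lt_min hδ hε
      linarith
    have hmδ : m < δ := by
      rw [hm]
      have := min_le_left δ ε
      linarith
    have hmε : m < ε := by
      rw [hm]
      have := min_le_right δ ε
      linarith
    have h4 : ap a (p + m) = ap a p + (2 : ℝ) ^ l * (p + m - p) := by
      apply h3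
      rw [Real.dist_eq, abs_lt]
      constructor <;> linarith
    have h5 := h1 (p + m) (by linarith) (by linarith)
    rw [h5, hfix, e1] at h4
    have h6 : (2 : ℝ) ^ k * m = 1 * m := by linarith
    have h7 := mul_right_cancel₀ hm0.ne' h6
    have h8 : (2 : ℝ) ^ k = (2 : ℝ) ^ (0 : ℤ) := by rw [h7, zpow_zero]
    exact hk0 (zpow_right_injective₀ (by norm_num) (by norm_num) h8)
  rcases lt_or_gt_of_ne hk0 with hk1 | hk1
  · have h2 := hk.inv (Or.inl rfl) (zpow_ne_zero k two_ne_zero)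
    rw [← zpow_neg] at h2
    exact setup_of_germ hB (Δ.inv_mem ha) hdy hp0 hp1 (show 0 < -k by omega) h2
  · exact setup_of_germ hB ha hdy hp0 hp1 hk1 hk

/-! ### The last step -/

/-- The elements with compact support in `(0, 1)`. -/
def Fc : Subgroup FR where
  carrier := {f | ∃ u v : ℝ, 0 < u ∧ v < 1 ∧ Sup f u v}
  one_mem' := ⟨1 / 2, 1 / 2, by norm_num, by norm_num, fun x _ => ap_one x⟩
  mul_mem' := by
    rintro f g ⟨u, v, hu, hv, h⟩ ⟨u', v', hu', hv', h'⟩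
    exact ⟨min u u', max v v', lt_min hu hu', max_lt hv hv',
      (h.mono (min_le_left _ _) (le_max_left _ _)).mul
        (h'.mono (min_le_right _ _) (le_max_right _ _))⟩
  inv_mem' := by
    rintro f ⟨u, v, hu, hv, h⟩
    exact ⟨u, v, hu, hv, h.inv⟩

instance : Fc.Normal where
  conj_mem := by
    rintro f ⟨u, v, hu, hv, h⟩ g
    refine ⟨ap g u, ap g v, ?_, ?_, h.conj g⟩
    · have := (ap_lt g).2 hu
      rwa [ap_left g le_rfl] at this
    · have := (ap_lt g).2 hv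
      rwa [ap_right g le_rfl] at this

lemma germ_of_fix_right {f : FR} {p q : ℝ} (hpq : p < q) (h : ∀ x, x ≤ q → ap f x = x) :
    Germ (Ici p) p 1 f := by
  have h2 : Iic q ∈ 𝓝[Ici p] p := mem_nhdsWithin_of_mem_nhds (Iic_mem_nhds hpq)
  unfold Germ
  filter_upwards [h2] with x hx
  rw [h x hx]
  ring

lemma germ_of_fix_left {f : FR} {p q : ℝ} (hpq : q < p) (h : ∀ x, q ≤ x → ap f x = x) :
    Germ (Iic p) p 1 f := by
  have h2 : Ici q ∈ 𝓝[Iic p] p := mem_nhdsWithin_of_mem_nhds (Ici_mem_nhds hpq)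
  unfold Germ
  filter_upwards [h2] with x hx
  rw [h x hx]
  ring

/-- Correction of the germs at `0` and `1` far away from `[β, β']`. -/
lemma exists_correction {z w : FR} {β β' : ℝ} (hβ : 0 < β) (hββ' : β ≤ β') (hβ' : β' < 1)
    (z1 : ∀ x, β ≤ x → ap z x = x) (z2 : Germ (Ici 0) 0 2 z)
    (w1 : ∀ x, x ≤ β' → ap w x = x) (w2 : Germ (Iic 1) 1 2⁻¹ w) (f : FR) :
    ∃ i j : ℤ, f * z ^ i * w ^ j ∈ Fc := by
  obtain ⟨i, hi⟩ := exists_germ_right f (ap_left f le_rfl)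
  obtain ⟨j, hj⟩ := exists_germ_left f (ap_right f le_rfl)
  have h2 : (2 : ℝ) ≠ 0 := two_ne_zero
  refine ⟨-i, j, ?_⟩
  have g0 : Germ (Ici 0) 0 1 (f * z ^ (-i) * w ^ j) := by
    have h3 := (hi.mul (Or.inl rfl) (z2.zpow (Or.inl rfl) h2 (-i))).mul (Or.inl rfl)
      ((germ_of_fix_right (hβ.trans_le hββ') w1).zpow (Or.inl rfl) one_ne_zero j)
    rwa [one_zpow, mul_one, ← zpow_add₀ h2, add_neg_cancel, zpow_zero] at h3
  have g1 : Germ (Iic 1) 1 1 (f * z ^ (-i) * w ^ j) := by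
    have h3 := (hj.mul (Or.inr rfl)
      ((germ_of_fix_left (hββ'.trans_lt hβ') z1).zpow (Or.inr rfl) one_ne_zero (-i))).mul
      (Or.inr rfl) (w2.zpow (Or.inr rfl) (inv_ne_zero h2) j)
    rwa [one_zpow, mul_one, inv_zpow, mul_inv_cancel₀ (zpow_ne_zero j h2)] at h3
  obtain ⟨ε, hε, k0⟩ := right_nhds g0
  obtain ⟨η, hη, k1⟩ := left_nhds g1
  refine ⟨ε / 2, 1 - η / 2, by linarith, by linarith, fun x hx => ?_⟩
  rcases hx with hx | hx
  · rcases le_total x 0 with h4 | h4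
    · exact ap_left _ h4
    · rw [k0 x h4 (by linarith)]
      ring
  · rcases le_total 1 x with h4 | h4
    · exact ap_right _ h4
    · rw [k1 x h4 (by linarith)]
      ring

lemma commutator_le_Fc : commutator FR ≤ ⁅Fc, Fc⁆ := by
  -- the images of elements of `Fc` in the quotient are central
  have hcent : ∀ c ∈ Fc, ∀ f : FR, Commute (QuotientGroup.mk' ⁅Fc, Fc⁆ f)
      (QuotientGroup.mk' ⁅Fc, Fc⁆ c) := by
    rintro c hc f
    obtain ⟨u, v, hu, hv, hs⟩ := id hc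
    obtain ⟨β, hβd, hβ1, hβ2⟩ := exists_dyadic_between (show 0 < min u (1 / 2) from
      lt_min hu (by norm_num))
    obtain ⟨β', hβd', hβ1', hβ2'⟩ := exists_dyadic_between (show max v (1 / 2) < 1 from
      max_lt hv (by norm_num))
    have e1 : β < 1 / 2 := hβ2.trans_le (min_le_right _ _)
    have e2 : 1 / 2 < β' := (le_max_right _ _).trans_lt hβ1'
    obtain ⟨z, z1, z2, z3, z4, z5⟩ := exists_R IsDyadic.zero hβd le_rfl hβ1 (by linarith)
    obtain ⟨w, w1, w2, w3, w4, w5⟩ := exists_R hβd' IsDyadic.one (by linarith) hβ2' le_rfl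
    have z4' : Germ (Ici 0) 0 2 z := z4
    have w5' : Germ (Iic 1) 1 2⁻¹ w := w5
    obtain ⟨i, j, hf⟩ := exists_correction hβ1 (by linarith) hβ2' z2 z4' w1 w5' f
    have hzfix : ∀ (n : ℤ) (x : ℝ), β ≤ x → ap (z ^ n) x = x := by
      intro n x hx
      rcases le_total 0 n with h | h
      · obtain ⟨m, rfl⟩ := Int.eq_ofNat_of_zero_le h
        rw [zpow_natCast]
        exact ap_pow_eq (z2 x hx) m
      · obtain ⟨m, hm⟩ := Int.eq_ofNat_of_zero_le (neg_nonneg.2 h)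
        have hn : n = -(m : ℤ) := by omega
        rw [hn, zpow_neg, zpow_natCast]
        exact ap_inv_eq (ap_pow_eq (z2 x hx) m)
    have hwfix : ∀ (n : ℤ) (x : ℝ), x ≤ β' → ap (w ^ n) x = x := by
      intro n x hx
      rcases le_total 0 n with h | h
      · obtain ⟨m, rfl⟩ := Int.eq_ofNat_of_zero_le h
        rw [zpow_natCast]
        exact ap_pow_eq (w1 x hx) m
      · obtain ⟨m, hm⟩ := Int.eq_ofNat_of_zero_le (neg_nonneg.2 h)
        have hn : n = -(m : ℤ) := by omega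
        rw [hn, zpow_neg, zpow_natCast]
        exact ap_inv_eq (ap_pow_eq (w1 x hx) m)
    have hconj : f * c * f⁻¹ = (f * z ^ i * w ^ j) * c * (f * z ^ i * w ^ j)⁻¹ := by
      apply conj_eq
      intro x hx
      obtain ⟨hx1, hx2⟩ := hs.mem hx
      have hb1 : β ≤ x := (hβ2.trans_le (min_le_left _ _)).le.trans hx1.le
      have hb2 : x ≤ β' := hx2.le.trans ((le_max_left _ _).trans hβ1'.le)
      rw [ap_mul, ap_mul, hwfix j x hb2, hzfix i x hb1]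
    have hmem : f * c * f⁻¹ * c⁻¹ ∈ ⁅Fc, Fc⁆ := by
      rw [hconj]
      exact Subgroup.commutator_mem_commutator hf hc
    have h3 : QuotientGroup.mk' ⁅Fc, Fc⁆ (f * c * f⁻¹ * c⁻¹) = 1 :=
      (QuotientGroup.eq_one_iff _).2 hmem
    rw [map_mul, map_mul, map_mul, map_inv, map_inv] at h3
    have h4 := mul_inv_eq_one.1 h3
    exact mul_inv_eq_iff_eq_mul.1 h4
  obtain ⟨z, z1, z2, z3, z4, z5⟩ := exists_R IsDyadic.zero
    (show IsDyadic (1 / 4) from ⟨1, 2, by norm_num⟩) le_rfl (by norm_num) (by norm_num)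
  obtain ⟨w, w1, w2, w3, w4, w5⟩ := exists_R
    (show IsDyadic (3 / 4) from ⟨3, 2, by norm_num⟩) IsDyadic.one (by norm_num) (by norm_num) le_rfl
  have z4' : Germ (Ici 0) 0 2 z := z4
  have w5' : Germ (Iic 1) 1 2⁻¹ w := w5
  have hzw : Commute z w := by
    have hz : Sup z 0 (1 / 4) := fun x hx => hx.elim (z1 x) (z2 x)
    have hw : Sup w (3 / 4) 1 := fun x hx => hx.elim (w1 x) (w2 x)
    exact hz.commute hw (by norm_num)
  rw [commutator_def, Subgroup.commutator_le]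
  intro f _ g _
  rw [← QuotientGroup.eq_one_iff, ← QuotientGroup.mk'_apply, map_commutatorElement,
    commutatorElement_eq_one_iff_commute]
  obtain ⟨i, j, hf⟩ := exists_correction (show (0 : ℝ) < 1 / 4 by norm_num)
    (show (1 / 4 : ℝ) ≤ 3 / 4 by norm_num) (by norm_num) z2 z4' w1 w5' f
  obtain ⟨i', j', hg⟩ := exists_correction (show (0 : ℝ) < 1 / 4 by norm_num)
    (show (1 / 4 : ℝ) ≤ 3 / 4 by norm_num) (by norm_num) z2 z4' w1 w5' g
  set π := QuotientGroup.mk' ⁅Fc, Fc⁆ with hπ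
  have ef : π f = π (f * z ^ i * w ^ j) * ((π w) ^ j)⁻¹ * ((π z) ^ i)⁻¹ := by
    rw [← map_zpow, ← map_zpow, ← map_inv, ← map_inv, ← map_mul, ← map_mul]
    congr 1
    group
  have eg : π g = π (g * z ^ i' * w ^ j') * ((π w) ^ j')⁻¹ * ((π z) ^ i')⁻¹ := by
    rw [← map_zpow, ← map_zpow, ← map_inv, ← map_inv, ← map_mul, ← map_mul]
    congr 1
    group
  have hcf : ∀ x, Commute x (π (f * z ^ i * w ^ j)) := by
    intro x
    obtain ⟨y, rfl⟩ := QuotientGroup.mk'_surjective _ x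
    exact hcent _ hf y
  have hcg : ∀ x, Commute x (π (g * z ^ i' * w ^ j')) := by
    intro x
    obtain ⟨y, rfl⟩ := QuotientGroup.mk'_surjective _ x
    exact hcent _ hg y
  have hzwπ : Commute (π z) (π w) := hzw.map π
  rw [ef, eg]
  refine Commute.mul_left (Commute.mul_left (hcf _).symm ?_) ?_
  · refine Commute.mul_right (Commute.mul_right (hcg _) ?_) ?_
    · exact (((Commute.refl (π w)).zpow_zpow j j').inv_inv)
    · exact ((hzwπ.symm.zpow_zpow j i').inv_inv)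
  · refine Commute.mul_right (Commute.mul_right (hcg _) ?_) ?_
    · exact ((hzwπ.zpow_zpow i j').inv_inv)
    · exact (((Commute.refl (π z)).zpow_zpow i i').inv_inv)

/-- **A nontrivial boomerang subgroup of Thompson's group contains the commutator subgroup.** -/
theorem commutator_le_of_boom {Δ : Subgroup FR} (hB : Boom Δ) (hΔ : Δ ≠ ⊥) :
    commutator FR ≤ Δ := by
  obtain ⟨a, p, k, γ, S⟩ := exists_setup hB hΔ
  refine commutator_le_Fc.trans ?_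
  rw [Subgroup.commutator_le]
  rintro f ⟨u, v, hu, hv, h⟩ g ⟨u', v', hu', hv', h'⟩
  exact S.commutator_mem (h.mono (min_le_left u u') (le_max_left v v'))
    (h'.mono (min_le_right _ _) (le_max_right _ _)) (lt_min hu hu') (max_lt hv hv')

end Pool.Agent.R727.Thompson
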