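import Mathlib

set_option autoImplicit false

/-!
# Variants of full transformation monoids and their minimum degree

Definitions (`Variant`, `minDegree`, `rank`), transport to arbitrary finite sets, and a construction
of small faithful actions of variants from tuples over quotients by congruences inside the kernel.
-/

namespace Pool.Agent.R727.Variants

/-- The variant `T_n^a` of the full transformation monoid: all maps `Fin n → Fin n` with the
sandwich product `x ⋆ y = x a y`. -/
def Variant {n : ℕ} (_a : Fin n → Fin n) : Type := Fin n → Fin n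

instance {n : ℕ} (a : Fin n → Fin n) : Semigroup (Variant a) where
  mul x y := fun i => x (a (y i))
  mul_assoc _ _ _ := rfl

/-- The minimum (transformation) degree of a semigroup: the least `m ≥ 1` such that `S` embeds into
the full transformation monoid `T_m = Function.End (Fin m)`. -/
noncomputable def minDegree (S : Type) [Semigroup S] : ℕ :=
  sInf {m | 1 ≤ m ∧ ∃ f : S →ₙ* Function.End (Fin m), Function.Injective f}

/-- The rank of a transformation: the size of its image. -/
noncomputable def rank {n : ℕ} (a : Fin n → Fin n) : ℕ := (Set.range a).ncard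

/-- The variant with sandwich element `a : X → X` embeds into the full transformation monoid on the
set `M`. -/
def Emb {X : Type} (a : X → X) (M : Type) : Prop :=
  ∃ ψ : (X → X) → (M → M), Function.Injective ψ ∧
    ∀ x y : X → X, ∀ p : M, ψ (fun i => x (a (y i))) p = ψ x (ψ y p)

lemma Emb.congr {X M M' : Type} {a : X → X} (e : M ≃ M') (h : Emb a M) : Emb a M' := by
  obtain ⟨ψ, hψ, hmul⟩ := h
  refine ⟨fun x p => e (ψ x (e.symm p)), fun x y hxy => hψ ?_, fun x y p => ?_⟩
  · funext p
    have := congrFun hxy (e p)
    simpa using this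
  · simp [hmul]

/-- Transport of an embedding along a bijection of `X` with `Fin n`. -/
lemma emb_iff {X : Type} {n m : ℕ} (e : X ≃ Fin n) (a : X → X) :
    (∃ f : Variant (fun i => e (a (e.symm i))) →ₙ* Function.End (Fin m), Function.Injective f) ↔
      Emb a (Fin m) := by
  constructor
  · rintro ⟨f, hf⟩
    let c : (X → X) → Variant (fun i => e (a (e.symm i))) := fun x i => e (x (e.symm i))
    have hc : Function.Injective c := by
      intro x y h
      funext i
      have := congrFun h (e i)
      simpa [c] using this
    refine ⟨fun x => f (c x), fun x y h => hc (hf h), fun x y p => ?_⟩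
    have h1 : c (fun i => x (a (y i))) = c x * c y := by
      funext i
      change e (x (a (y (e.symm i)))) = e (x (e.symm (e (a (e.symm (e (y (e.symm i))))))))
      simp
    simp only []
    rw [h1, map_mul]
    rfl
  · rintro ⟨ψ, hψ, hmul⟩
    refine ⟨⟨fun x => ψ (fun i => e.symm (x (e i))), fun x y => ?_⟩, fun x y h => ?_⟩
    · funext p
      change ψ (fun i => e.symm (x (e (a (e.symm (y (e i))))))) p = ψ _ (ψ _ p)
      rw [← hmul]
    · have h1 := hψ h
      funext i
      have := congrFun h1 (e.symm i)
      simpa using this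

lemma minDegree_le {X M : Type} [Fintype M] {n : ℕ} (e : X ≃ Fin n) (a : X → X) (h : Emb a M)
    (hM : 1 ≤ Fintype.card M) :
    minDegree (Variant (fun i => e (a (e.symm i)))) ≤ Fintype.card M :=
  Nat.sInf_le ⟨hM, (emb_iff e a).2 (h.congr (Fintype.equivFin M))⟩

/-- Small faithful actions: tuples over the quotients `Y i` of `X` (by equivalence relations contained
in the kernel of `a`), together with generators `G i` which see tuples of points of `X`. -/
theorem emb_of_components {X I : Type} (Y T G : I → Type) [∀ i, Nonempty (T i)]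
    (a : X → X) (φ : ∀ i, X → Y i) (α : ∀ i, Y i → X) (hα : ∀ i x, α i (φ i x) = a x)
    (g : ∀ i, G i → T i → X) (hg : ∀ i x, (∃ z, a z = x) ∨ ∃ k τ, g i k τ = x)
    (hφ : ∀ x y, (∀ i, φ i x = φ i y) → x = y) :
    Emb a (Σ i, (T i → Y i) ⊕ G i) := by
  refine ⟨fun x p => ⟨p.1, Sum.inl (Sum.elim (fun u τ => φ p.1 (x (α p.1 (u τ))))
    (fun k τ => φ p.1 (x (g p.1 k τ))) p.2)⟩, fun x y h => ?_, fun x y p => ?_⟩
  · funext j
    refine hφ _ _ fun i => ?_
    rcases hg i j with ⟨z, rfl⟩ | ⟨k, τ, rfl⟩
    · have h1 := congrFun h ⟨i, Sum.inl fun _ => φ i z⟩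
      simp only [Sum.elim_inl, Sigma.mk.injEq, heq_eq_eq, true_and, Sum.inl.injEq, hα] at h1
      exact congrFun h1 (Classical.arbitrary _)
    · have h1 := congrFun h ⟨i, Sum.inr k⟩
      simp only [Sum.elim_inr, Sigma.mk.injEq, heq_eq_eq, true_and, Sum.inl.injEq] at h1
      exact congrFun h1 τ
  · obtain ⟨i, u | k⟩ := p
    · simp [hα]
    · simp [hα]

end Pool.Agent.R727.Variants
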