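import Mathlib

set_option autoImplicit false

/-!
# A lower bound for the degree of variants whose sandwich element has a balanced kernel

`X = Fin r × L`, the sandwich element is `a (c, l) = (c, l0)`. Let the variant act faithfully on `M`.
Let `N` be the set of all points `x • p`, and `G` its complement. For `p : M` and `j : X` the element
`p` *sees* `j` if `T j w v • p` depends on `w`, where `T j w v` is the map with value `w` at `j` and
`v` elsewhere. If `|N|` is small then every `p` sees at most two points.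
-/

namespace Pool.Agent.R727.VariantsLower

open Finset Classical

variable {r : ℕ} {L : Type} (l0 : L) {M : Type}

/-- `h : X^κ → M` is a morphism of acts. -/
def IsMor (ψ : (Fin r × L → Fin r × L) → (M → M)) {κ : Type}
    (h : (κ → Fin r × L) → M) : Prop :=
  ∀ (y : Fin r × L → Fin r × L) (w : κ → Fin r × L),
    ψ y (h w) = h (fun i => y ((w i).1, l0))

/-- The variable `i` of `h` is essential. -/
def Ess {κ : Type} (h : (κ → Fin r × L) → M) (i : κ) : Prop :=
  ∃ w w' : κ → Fin r × L, (∀ k, k ≠ i → w k = w' k) ∧ h w ≠ h w'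

/-- The map with value `w` at `j` and `v` elsewhere. -/
noncomputable def T (j w v : Fin r × L) : Fin r × L → Fin r × L := fun i => if i = j then w else v

variable {l0}
variable {ψ : (Fin r × L → Fin r × L) → (M → M)}

section Mor

lemma transfer {κ κ' : Type} {h : (κ → Fin r × L) → M} {h' : (κ' → Fin r × L) → M}
    (hm : IsMor l0 ψ h) (hm' : IsMor l0 ψ h')
    {w : κ → Fin r × L} {w' : κ' → Fin r × L} (heq : h w = h' w') (z : Fin r → Fin r × L) :
    h (fun i => z (w i).1) = h' (fun i => z (w' i).1) := by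
  have h1 := hm (fun p => z p.1) w
  have h2 := hm' (fun p => z p.1) w'
  rw [heq] at h1
  rw [← h1, ← h2]

lemma not_eq_of_ess {κ κ' : Type} {h : (κ → Fin r × L) → M} {h' : (κ' → Fin r × L) → M}
    (hm : IsMor l0 ψ h) (hm' : IsMor l0 ψ h')
    {i0 : κ} (hess : Ess h i0) {w : κ → Fin r × L} {w' : κ' → Fin r × L}
    (hinj : Function.Injective fun i => (w i).1) (hnot : ∀ i, (w' i).1 ≠ (w i0).1) :
    h w ≠ h' w' := by
  intro heq
  obtain ⟨u, u', huu, hne⟩ := hess
  let z : Fin r → Fin r × L := Function.extend (fun i => (w i).1) u fun _ => u i0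
  let z' : Fin r → Fin r × L := Function.extend (fun i => (w i).1) u' fun _ => u i0
  have hz : (fun i => z (w i).1) = u := by
    funext i
    exact hinj.extend_apply u _ i
  have hz' : (fun i => z' (w i).1) = u' := by
    funext i
    exact hinj.extend_apply u' _ i
  have h1 := transfer hm hm' heq z
  have h2 := transfer hm hm' heq z'
  have h3 : (fun i => z (w' i).1) = fun i => z' (w' i).1 := by
    funext i
    by_cases hi : ∃ k, (w k).1 = (w' i).1
    · obtain ⟨k, hk⟩ := hi
      rw [← hk]
      have e1 : z (w k).1 = u k := congrFun hz k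
      have e2 : z' (w k).1 = u' k := congrFun hz' k
      rw [e1, e2]
      apply huu
      rintro rfl
      exact hnot i hk.symm
    · have e1 : z (w' i).1 = u i0 := Function.extend_apply' _ _ _ hi
      have e2 : z' (w' i).1 = u i0 := Function.extend_apply' _ _ _ hi
      rw [e1, e2]
  rw [hz] at h1
  rw [hz', ← h3] at h2
  exact hne (h1.trans h2.symm)

end Mor

section Fin

variable [Fintype L] [Fintype M]

/-- The set of all `x • p`. -/
noncomputable def NN (ψ : (Fin r × L → Fin r × L) → (M → M)) : Finset M :=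
  univ.filter fun m => ∃ x p, ψ x p = m

lemma mem_NN (x : Fin r × L → Fin r × L) (p : M) : ψ x p ∈ NN ψ := by
  simp only [NN, mem_filter, mem_univ, true_and]
  exact ⟨x, p, rfl⟩

/-- Three essential variables need many points. -/
lemma cube_le {s : ℕ} {h : (Fin 4 → Fin r × L) → M} (hm : IsMor l0 ψ h) (hN : ∀ w, h w ∈ NN ψ)
    (hs : 3 * s + 1 ≤ r) (h0 : Ess h 0) (h1 : Ess h 1) (h2 : Ess h 2) :
    s ^ 3 ≤ (NN ψ).card := by
  let c : Fin s × Fin s × Fin s → Fin 4 → Fin r × L := fun t =>
    ![(⟨t.1, by omega⟩, l0), (⟨s + t.2.1, by omega⟩, l0), (⟨2 * s + t.2.2, by omega⟩, l0),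
      (⟨3 * s, by omega⟩, l0)]
  have hinj : ∀ t, Function.Injective fun i => (c t i).1 := by
    intro t i j hij
    have h1 := t.1.2
    have h2 := t.2.1.2
    have h3 := t.2.2.2
    fin_cases i <;> fin_cases j <;> simp [c] at hij ⊢ <;> omega
  have hcard : s ^ 3 = Fintype.card (Fin s × Fin s × Fin s) := by
    simp only [Fintype.card_prod, Fintype.card_fin]
    ring
  rw [hcard, ← Finset.card_univ]
  refine Finset.card_le_card_of_injOn (fun t => h (c t)) (fun t _ => hN _) ?_
  intro t _ t' _ htt
  simp only at htt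
  have ht1 := t.1.2
  have ht2 := t.2.1.2
  have ht3 := t.2.2.2
  have ht1' := t'.1.2
  have ht2' := t'.2.1.2
  have ht3' := t'.2.2.2
  have e0 : t.1 = t'.1 := by
    by_contra hne
    refine not_eq_of_ess hm hm h0 (hinj t) (w' := c t') ?_ htt
    intro i
    have hne' : (t.1 : ℕ) ≠ t'.1 := fun h => hne (Fin.ext h)
    fin_cases i <;> simp [c] <;> omega
  have e1 : t.2.1 = t'.2.1 := by
    by_contra hne
    refine not_eq_of_ess hm hm h1 (hinj t) (w' := c t') ?_ htt
    intro i
    have hne' : (t.2.1 : ℕ) ≠ t'.2.1 := fun h => hne (Fin.ext h)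
    fin_cases i <;> simp [c] <;> omega
  have e2 : t.2.2 = t'.2.2 := by
    by_contra hne
    refine not_eq_of_ess hm hm h2 (hinj t) (w' := c t') ?_ htt
    intro i
    have hne' : (t.2.2 : ℕ) ≠ t'.2.2 := fun h => hne (Fin.ext h)
    fin_cases i <;> simp [c] <;> omega
  exact Prod.ext e0 (Prod.ext e1 e2)

/-- `p` sees `j`. -/
def Sees (ψ : (Fin r × L → Fin r × L) → (M → M)) (p : M) (j : Fin r × L) : Prop :=
  ∃ w w' v : Fin r × L, ψ (T j w v) p ≠ ψ (T j w' v) p

/-- `p` sees `j`, and the value at the background does not matter. -/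
def Type2 (ψ : (Fin r × L → Fin r × L) → (M → M)) (p : M) (j : Fin r × L) : Prop :=
  Sees ψ p j ∧ ∀ w v v' : Fin r × L, ψ (T j w v) p = ψ (T j w v') p

/-- `p` sees `j`, and the value at the background matters. -/
def Type3 (ψ : (Fin r × L → Fin r × L) → (M → M)) (p : M) (j : Fin r × L) : Prop :=
  Sees ψ p j ∧ ¬ ∀ w v v' : Fin r × L, ψ (T j w v) p = ψ (T j w v') p

omit [Fintype L] [Fintype M] in
lemma isMor_coloring (hmul : ∀ (x y : Fin r × L → Fin r × L) (p : M),
    ψ (fun i => x ((y i).1, l0)) p = ψ x (ψ y p)) {κ : Type} (c : Fin r × L → κ) (p : M) :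
    IsMor l0 ψ (fun w : κ → Fin r × L => ψ (fun i => w (c i)) p) := by
  intro y w
  simp only
  rw [← hmul]

omit [Fintype L] [Fintype M] in
lemma ess_of_sees {κ : Type} {p : M} {j : Fin r × L} (h : Sees ψ p j)
    (c : Fin r × L → κ) (k : κ) (hc : ∀ i, c i = k ↔ i = j) :
    Ess (fun w : κ → Fin r × L => ψ (fun i => w (c i)) p) k := by
  obtain ⟨w, w', v, hne⟩ := h
  refine ⟨fun i => if i = k then w else v, fun i => if i = k then w' else v, fun i hi => ?_, ?_⟩
  · simp only [if_neg hi]
  have h1 : ∀ u : Fin r × L, (fun i => if c i = k then u else v) = T j u v := by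
    intro u
    funext i
    unfold T
    by_cases hi : i = j
    · rw [if_pos hi, if_pos ((hc i).2 hi)]
    · rw [if_neg hi, if_neg fun h => hi ((hc i).1 h)]
  simp only [h1]
  exact hne

variable (hmul : ∀ (x y : Fin r × L → Fin r × L) (p : M),
    ψ (fun i => x ((y i).1, l0)) p = ψ x (ψ y p))

include hmul

lemma not_sees_three {s : ℕ} (hs : 3 * s + 1 ≤ r) (hsmall : (NN ψ).card < s ^ 3) {p : M}
    {j0 j1 j2 : Fin r × L} (h01 : j0 ≠ j1) (h02 : j0 ≠ j2) (h12 : j1 ≠ j2)
    (h0 : Sees ψ p j0) (h1 : Sees ψ p j1) (h2 : Sees ψ p j2) : False := by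
  let c : Fin r × L → Fin 4 := fun i => if i = j0 then 0 else if i = j1 then 1 else
    if i = j2 then 2 else 3
  have hc0 : ∀ i, c i = 0 ↔ i = j0 := by
    intro i
    by_cases a0 : i = j0
    · simp [c, a0]
    · by_cases a1 : i = j1
      · simp [c, a1, h01.symm]
      · by_cases a2 : i = j2
        · simp only [c, if_neg a0, if_neg a1, if_pos a2]
          simp [a0]
        · simp only [c, if_neg a0, if_neg a1, if_neg a2]
          simp [a0]
  have hc1 : ∀ i, c i = 1 ↔ i = j1 := by
    intro i
    by_cases a0 : i = j0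
    · simp [c, a0, h01]
    · by_cases a1 : i = j1
      · simp [c, a1, h01.symm]
      · by_cases a2 : i = j2
        · simp only [c, if_neg a0, if_neg a1, if_pos a2]
          simp [a1]
        · simp only [c, if_neg a0, if_neg a1, if_neg a2]
          simp [a1]
  have hc2 : ∀ i, c i = 2 ↔ i = j2 := by
    intro i
    by_cases a0 : i = j0
    · simp only [c, if_pos a0]
      simp [a0, h02]
    · by_cases a1 : i = j1
      · simp only [c, if_neg a0, if_pos a1]
        simp [a1, h12]
      · by_cases a2 : i = j2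
        · simp only [c, if_neg a0, if_neg a1, if_pos a2]
          simp [a2]
        · simp only [c, if_neg a0, if_neg a1, if_neg a2]
          simp [a2]
  have := cube_le (s := s) (isMor_coloring hmul c p) (fun w => mem_NN _ _) hs
    (ess_of_sees h0 c 0 hc0) (ess_of_sees h1 c 1 hc1) (ess_of_sees h2 c 2 hc2)
  omega

/-- The map with value `w0` at `j0`, `w1` at `j1` and `v` elsewhere. -/
lemma indep_of_two {s : ℕ} (hs : 3 * s + 1 ≤ r) (hsmall : (NN ψ).card < s ^ 3) {p : M}
    {j0 j1 : Fin r × L} (h01 : j0 ≠ j1) (h0 : Sees ψ p j0) (h1 : Sees ψ p j1)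
    (w0 w1 v v' : Fin r × L) :
    ψ (fun i => if i = j0 then w0 else if i = j1 then w1 else v) p =
      ψ (fun i => if i = j0 then w0 else if i = j1 then w1 else v') p := by
  let c : Fin r × L → Fin 4 := fun i => if i = j0 then 0 else if i = j1 then 1 else 2
  have hc0 : ∀ i, c i = 0 ↔ i = j0 := by
    intro i
    by_cases a0 : i = j0
    · simp [c, a0]
    · by_cases a1 : i = j1
      · simp [c, a1, h01.symm]
      · simp [c, a0, a1]
  have hc1 : ∀ i, c i = 1 ↔ i = j1 := by
    intro i
    by_cases a0 : i = j0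
    · simp [c, a0, h01]
    · by_cases a1 : i = j1
      · simp [c, a1, h01.symm]
      · simp only [c, if_neg a0, if_neg a1]
        simp [a1]
  by_contra hne
  have hess : Ess (fun w : Fin 4 → Fin r × L => ψ (fun i => w (c i)) p) 2 := by
    refine ⟨![w0, w1, v, v'], ![w0, w1, v', v'], fun k hk => ?_, fun heq => hne ?_⟩
    · fin_cases k
      · rfl
      · rfl
      · exact absurd rfl hk
      · rfl
    have e1 : ∀ b : Fin r × L, (fun i => (![w0, w1, b, v'] : Fin 4 → Fin r × L) (c i)) =
        fun i => if i = j0 then w0 else if i = j1 then w1 else b := by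
      intro b
      funext i
      by_cases a0 : i = j0
      · simp [c, a0]
      · by_cases a1 : i = j1
        · simp [c, a1, h01.symm]
        · simp [c, a0, a1]
    have heq' : ψ (fun i => (![w0, w1, v, v'] : Fin 4 → Fin r × L) (c i)) p =
        ψ (fun i => (![w0, w1, v', v'] : Fin 4 → Fin r × L) (c i)) p := heq
    rw [e1, e1] at heq'
    exact heq'
  have := cube_le (s := s) (isMor_coloring hmul c p) (fun w => mem_NN _ _) hs
    (ess_of_sees h0 c 0 hc0) (ess_of_sees h1 c 1 hc1) hess
  omega

lemma type2_unique {s : ℕ} (hs : 3 * s + 1 ≤ r) (hsmall : (NN ψ).card < s ^ 3) {p : M}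
    {j0 j1 : Fin r × L} (h0 : Type2 ψ p j0) (h1 : Sees ψ p j1) : j1 = j0 := by
  by_contra hne
  have h01 : j0 ≠ j1 := fun h => hne h.symm
  obtain ⟨w, w', v, hww⟩ := h1
  apply hww
  -- `g w0 w1` is independent of `w1`
  have key := indep_of_two hmul hs hsmall h01 h0.1 ⟨w, w', v, hww⟩
  have hT0 : ∀ a b : Fin r × L,
      (fun i => if i = j0 then a else if i = j1 then b else b) = T j0 a b := by
    intro a b
    funext i
    unfold T
    by_cases a0 : i = j0
    · simp [a0]
    · by_cases a1 : i = j1 <;> simp [a0, a1]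
  have hT1 : ∀ a b : Fin r × L,
      (fun i => if i = j0 then b else if i = j1 then a else b) = T j1 a b := by
    intro a b
    funext i
    unfold T
    by_cases a0 : i = j0
    · simp [a0, h01]
    · by_cases a1 : i = j1
      · rw [if_neg a0, if_pos a1]
      · simp [a0, a1]
  have h2 : ∀ a : Fin r × L, ψ (T j1 a v) p = ψ (T j0 v a) p := by
    intro a
    rw [← hT1, ← hT0, key v a v a]
  rw [h2 w, h2 w', h0.2 v w w']

lemma count_le {s : ℕ} (hs : 3 * s + 1 ≤ r) (hsmall : (NN ψ).card < s ^ 3) (p : M) :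
    2 * (univ.filter fun j => Type2 ψ p j).card + (univ.filter fun j => Type3 ψ p j).card ≤ 2 := by
  by_cases h : ∃ j0, Type2 ψ p j0
  · obtain ⟨j0, hj0⟩ := h
    have h1 : (univ.filter fun j => Type2 ψ p j) ⊆ {j0} := by
      intro j hj
      rw [mem_filter] at hj
      rw [mem_singleton]
      exact type2_unique hmul hs hsmall hj0 hj.2.1
    have h2 : (univ.filter fun j => Type3 ψ p j) = ∅ := by
      rw [filter_eq_empty_iff]
      intro j _ hj
      have h3 := type2_unique hmul hs hsmall hj0 hj.1
      subst h3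
      exact hj.2 hj0.2
    have h3 := card_le_card h1
    rw [card_singleton] at h3
    rw [h2, card_empty]
    omega
  · push Not at h
    have h1 : (univ.filter fun j => Type2 ψ p j) = ∅ := by
      rw [filter_eq_empty_iff]
      intro j _ hj
      exact h j hj
    rw [h1, card_empty]
    by_contra hcon
    push Not at hcon
    have h3 : 2 < (univ.filter fun j => Type3 ψ p j).card := by omega
    rw [Finset.two_lt_card] at h3
    obtain ⟨a, ha, b, hb, c, hc, hab, hac, hbc⟩ := h3
    rw [mem_filter] at ha hb hc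
    exact not_sees_three hmul hs hsmall hab hac hbc ha.2.1 hb.2.1 hc.2.1

/-- Separation: at a point outside the image of the sandwich element all pairs of values are
separated by points outside `NN`. -/
lemma exists_sep (hψ : Function.Injective ψ) {j : Fin r × L} (hj : j.2 ≠ l0) {w w' : Fin r × L}
    (hw : w ≠ w') (v : Fin r × L) :
    ∃ p, p ∉ NN ψ ∧ ψ (T j w v) p ≠ ψ (T j w' v) p := by
  have h1 : ψ (T j w v) ≠ ψ (T j w' v) := by
    intro h
    have h2 := congrFun (hψ h) j
    simp only [T, if_true] at h2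
    exact hw h2
  obtain ⟨p, hp⟩ := Function.ne_iff.1 h1
  refine ⟨p, fun hpN => hp ?_, hp⟩
  simp only [NN, mem_filter, mem_univ, true_and] at hpN
  obtain ⟨y, q, rfl⟩ := hpN
  rw [← hmul, ← hmul]
  congr 1
  funext i
  have h3 : (((y i).1, l0) : Fin r × L) ≠ j := by
    intro h
    apply hj
    rw [← h]
  simp [T, h3]

omit [Fintype L] [Fintype M] hmul in
lemma sum_card_eq {ι : Type} (A : Finset ι) (S : ι → Finset M) (N : Finset M)
    (hS : ∀ i ∈ A, S i ⊆ N) :
    ∑ i ∈ A, (S i).card = ∑ m ∈ N, (A.filter fun i => m ∈ S i).card := by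
  have h1 : ∀ i ∈ A, (S i).card = ∑ m ∈ N, if m ∈ S i then 1 else 0 := by
    intro i hi
    rw [← Finset.card_filter]
    congr 1
    ext m
    rw [mem_filter]
    exact ⟨fun h => ⟨hS i hi h, h⟩, fun h => h.2⟩
  rw [Finset.sum_congr rfl h1, Finset.sum_comm]
  exact Finset.sum_congr rfl fun m _ => (Finset.card_filter _ _).symm

/-- The values of `ψ (T j w v) p` for `w` in class `c` and `v` in class `d`. -/
noncomputable def FF (ψ : (Fin r × L → Fin r × L) → (M → M)) (p : M) (j : Fin r × L)
    (c d : Fin r) : Finset M :=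
  (univ : Finset (L × L)).image fun q => ψ (T j (c, q.1) (d, q.2)) p

/-- The symmetrized set of values. -/
noncomputable def SS (ψ : (Fin r × L → Fin r × L) → (M → M)) (p : M) (j : Fin r × L)
    (c d : Fin r) : Finset M := FF ψ p j c d ∪ FF ψ p j d c

omit hmul in
lemma SS_subset (p : M) (j : Fin r × L) (c d : Fin r) : SS ψ p j c d ⊆ NN ψ := by
  intro m hm
  simp only [SS, FF, mem_union, mem_image] at hm
  rcases hm with ⟨q, _, rfl⟩ | ⟨q, _, rfl⟩ <;> exact mem_NN _ _

omit [Fintype L] [Fintype M] hmul in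
lemma T_eq (j w v : Fin r × L) :
    (fun i => (![w, v] : Fin 2 → Fin r × L) (if i = j then 0 else 1)) = T j w v := by
  funext i
  unfold T
  split_ifs <;> rfl

omit [Fintype L] [Fintype M] hmul in
lemma ess_one_of_type3 {p : M} {j : Fin r × L} (h : Type3 ψ p j) :
    Ess (fun w : Fin 2 → Fin r × L => ψ (fun i => w (if i = j then 0 else 1)) p) 1 := by
  have h2 := h.2
  push Not at h2
  obtain ⟨w, v, v', hne⟩ := h2
  refine ⟨![w, v], ![w, v'], fun k hk => ?_, ?_⟩
  · fin_cases k
    · rfl
    · exact absurd rfl hk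
  · simp only [T_eq]
    exact hne

omit [Fintype L] [Fintype M] hmul in
lemma ess_zero_of_sees {p : M} {j : Fin r × L} (h : Sees ψ p j) :
    Ess (fun w : Fin 2 → Fin r × L => ψ (fun i => w (if i = j then 0 else 1)) p) 0 := by
  refine ess_of_sees h (fun i => if i = j then 0 else 1) 0 fun i => ?_
  by_cases hi : i = j
  · simp [hi]
  · simp [hi]

omit [Fintype M] in
lemma FF_disj {p : M} {j : Fin r × L} (h : Type3 ψ p j) {c d c' d' : Fin r} (hcd : c ≠ d)
    {m : M} (hm : m ∈ FF ψ p j c d) (hm' : m ∈ FF ψ p j c' d') :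
    (c = c' ∧ d = d') ∨ (c = d' ∧ d = c') := by
  simp only [FF, mem_image, mem_univ, true_and] at hm hm'
  obtain ⟨q, rfl⟩ := hm
  obtain ⟨q', hq'⟩ := hm'
  have hmor := isMor_coloring hmul (fun i => if i = j then (0 : Fin 2) else 1) p
  have hinj : Function.Injective
      fun i => ((![(c, q.1), (d, q.2)] : Fin 2 → Fin r × L) i).1 := by
    intro a b hab
    fin_cases a <;> fin_cases b
    · rfl
    · exact absurd hab hcd
    · exact absurd hab.symm hcd
    · rfl
  have key : ∀ i0 : Fin 2, Ess (fun w : Fin 2 → Fin r × L =>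
      ψ (fun i => w (if i = j then 0 else 1)) p) i0 →
      ((![(c, q.1), (d, q.2)] : Fin 2 → Fin r × L) i0).1 = c' ∨
      ((![(c, q.1), (d, q.2)] : Fin 2 → Fin r × L) i0).1 = d' := by
    intro i0 hess
    by_contra hcon
    push Not at hcon
    refine not_eq_of_ess hmor hmor hess hinj (w' := ![(c', q'.1), (d', q'.2)]) ?_ ?_
    · intro i
      fin_cases i
      · exact fun h => hcon.1 h.symm
      · exact fun h => hcon.2 h.symm
    · simp only [T_eq]
      exact hq'.symm
  have k0 := key 0 (ess_zero_of_sees h.1)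
  have k1 := key 1 (ess_one_of_type3 h)
  simp only [Matrix.cons_val_zero, Matrix.cons_val_one] at k0 k1
  rcases k0 with k0 | k0 <;> rcases k1 with k1 | k1
  · exact absurd (k0.trans k1.symm) hcd
  · exact Or.inl ⟨k0, k1⟩
  · exact Or.inr ⟨k0, k1⟩
  · exact absurd (k0.trans k1.symm) hcd

omit [Fintype M] in
lemma SS_count {p : M} {j : Fin r × L} (h : Type3 ψ p j) (m : M) :
    ((univ.filter fun x : Fin r × Fin r => x.1 ≠ x.2).filter
      fun x => m ∈ SS ψ p j x.1 x.2).card ≤ 2 := by
  by_contra hcon
  push Not at hcon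
  obtain ⟨x, hx⟩ : ((univ.filter fun x : Fin r × Fin r => x.1 ≠ x.2).filter
      fun x => m ∈ SS ψ p j x.1 x.2).Nonempty := by
    rw [← Finset.card_pos]; omega
  have hsub : ((univ.filter fun x : Fin r × Fin r => x.1 ≠ x.2).filter
      fun x => m ∈ SS ψ p j x.1 x.2) ⊆ {x, (x.2, x.1)} := by
    intro y hy
    simp only [mem_filter, mem_univ, true_and] at hx hy
    rw [mem_insert, mem_singleton]
    have hx1 : ∃ c d, c ≠ d ∧ ((c = x.1 ∧ d = x.2) ∨ (c = x.2 ∧ d = x.1)) ∧ m ∈ FF ψ p j c d := by
      rcases mem_union.1 hx.2 with h1 | h1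
      · exact ⟨x.1, x.2, hx.1, Or.inl ⟨rfl, rfl⟩, h1⟩
      · exact ⟨x.2, x.1, hx.1.symm, Or.inr ⟨rfl, rfl⟩, h1⟩
    have hy1 : ∃ c d, c ≠ d ∧ ((c = y.1 ∧ d = y.2) ∨ (c = y.2 ∧ d = y.1)) ∧ m ∈ FF ψ p j c d := by
      rcases mem_union.1 hy.2 with h1 | h1
      · exact ⟨y.1, y.2, hy.1, Or.inl ⟨rfl, rfl⟩, h1⟩
      · exact ⟨y.2, y.1, hy.1.symm, Or.inr ⟨rfl, rfl⟩, h1⟩
    obtain ⟨c, d, hcd, hx2, hx3⟩ := hx1
    obtain ⟨c', d', hcd', hy2, hy3⟩ := hy1
    have h4 := FF_disj hmul h hcd hx3 hy3
    rcases hx2 with ⟨rfl, rfl⟩ | ⟨rfl, rfl⟩ <;> rcases hy2 with ⟨rfl, rfl⟩ | ⟨rfl, rfl⟩ <;>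
      rcases h4 with ⟨h5, h6⟩ | ⟨h5, h6⟩
    · left; exact Prod.ext h5.symm h6.symm
    · right; exact Prod.ext h6.symm h5.symm
    · right; exact Prod.ext h6.symm h5.symm
    · left; exact Prod.ext h5.symm h6.symm
    · right; exact Prod.ext h5.symm h6.symm
    · left; exact Prod.ext h6.symm h5.symm
    · left; exact Prod.ext h6.symm h5.symm
    · right; exact Prod.ext h5.symm h6.symm
  have h1 := (card_le_card hsub).trans Finset.card_le_two
  omega

lemma sum_SS_le {p : M} {j : Fin r × L} (h : Type3 ψ p j) :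
    ∑ x ∈ univ.filter (fun x : Fin r × Fin r => x.1 ≠ x.2), (SS ψ p j x.1 x.2).card ≤
      2 * (NN ψ).card := by
  rw [sum_card_eq _ _ (NN ψ) fun x _ => SS_subset p j x.1 x.2]
  calc ∑ m ∈ NN ψ, ((univ.filter fun x : Fin r × Fin r => x.1 ≠ x.2).filter
        fun x => m ∈ SS ψ p j x.1 x.2).card ≤ ∑ m ∈ NN ψ, 2 :=
        Finset.sum_le_sum fun m _ => SS_count hmul h m
    _ = 2 * (NN ψ).card := by rw [Finset.sum_const, smul_eq_mul, mul_comm]

omit [Fintype L] hmul in
lemma card_offdiag : (univ.filter fun x : Fin r × Fin r => x.1 ≠ x.2).card = r * r - r := by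
  have h1 : (univ.filter fun x : Fin r × Fin r => x.1 ≠ x.2) = (univ : Finset (Fin r)).offDiag := by
    ext x
    simp
  rw [h1, Finset.offDiag_card, Finset.card_univ, Fintype.card_fin]

/-- Case: no point of type 2 and at most three points of type 3. -/
lemma case_zero (hψ : Function.Injective ψ) {j : Fin r × L} (hj : j.2 ≠ l0) (T3 : Finset M)
    (hT3 : ∀ p ∈ T3, Type3 ψ p j) (hcard : T3.card ≤ 3)
    (hall : ∀ p, p ∉ NN ψ → Sees ψ p j → p ∈ T3) {k : ℕ} (hk : 2 ≤ k)
    (hkL : k ^ 3 ≤ Fintype.card L) :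
    (r * r - r) * k ≤ 6 * (NN ψ).card := by
  have step : ∀ c d : Fin r, c ≠ d → ∃ p ∈ T3, k ≤ (SS ψ p j c d).card := by
    intro c d hcd
    by_contra hcon
    push Not at hcon
    let f : L → (T3 → M) := fun l p => ψ (T j (c, l) (d, l0)) p
    have hf : ∀ l, f l ∈ Fintype.piFinset fun p : T3 => SS ψ p j c d := by
      intro l
      rw [Fintype.mem_piFinset]
      intro p
      refine mem_union_left _ ?_
      simp only [FF, mem_image, mem_univ, true_and, f]
      exact ⟨(l, l0), rfl⟩
    have hinj : Function.Injective f := by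
      intro l l' hll
      by_contra hne
      obtain ⟨p, hp, hpne⟩ := exists_sep hmul hψ hj (w := (c, l)) (w' := (c, l'))
        (fun h => hne (congrArg Prod.snd h)) (d, l0)
      have hp3 : p ∈ T3 := hall p hp ⟨_, _, _, hpne⟩
      exact hpne (congrFun hll ⟨p, hp3⟩)
    have h1 : Fintype.card L ≤ (Fintype.piFinset fun p : T3 => SS ψ p j c d).card := by
      rw [← Finset.card_univ]
      exact Finset.card_le_card_of_injOn f (fun l _ => hf l) hinj.injOn
    rw [Fintype.card_piFinset] at h1
    have h2 : ∏ p : T3, (SS ψ p j c d).card ≤ ∏ p : T3, (k - 1) := by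
      refine Finset.prod_le_prod' fun p _ => ?_
      have := hcon p p.2
      omega
    rw [Finset.prod_const, Finset.card_univ, Fintype.card_coe] at h2
    have h3 : (k - 1) ^ T3.card ≤ (k - 1) ^ 3 := Nat.pow_le_pow_right (by omega) hcard
    have h4 : (k - 1) ^ 3 < k ^ 3 := Nat.pow_lt_pow_left (by omega) (by norm_num)
    omega
  have h1 : ∀ x ∈ univ.filter (fun x : Fin r × Fin r => x.1 ≠ x.2),
      k ≤ ∑ p ∈ T3, (SS ψ p j x.1 x.2).card := by
    intro x hx
    rw [mem_filter] at hx
    obtain ⟨p, hp, hkp⟩ := step x.1 x.2 hx.2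
    exact hkp.trans (Finset.single_le_sum (f := fun p => (SS ψ p j x.1 x.2).card)
      (fun _ _ => Nat.zero_le _) hp)
  calc (r * r - r) * k = ∑ x ∈ univ.filter (fun x : Fin r × Fin r => x.1 ≠ x.2), k := by
        rw [Finset.sum_const, card_offdiag, smul_eq_mul]
    _ ≤ ∑ x ∈ univ.filter (fun x : Fin r × Fin r => x.1 ≠ x.2),
        ∑ p ∈ T3, (SS ψ p j x.1 x.2).card := Finset.sum_le_sum h1
    _ = ∑ p ∈ T3, ∑ x ∈ univ.filter (fun x : Fin r × Fin r => x.1 ≠ x.2),
        (SS ψ p j x.1 x.2).card := Finset.sum_comm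
    _ ≤ ∑ p ∈ T3, 2 * (NN ψ).card :=
        Finset.sum_le_sum fun p hp => sum_SS_le hmul (hT3 p hp)
    _ = T3.card * (2 * (NN ψ).card) := by rw [Finset.sum_const, smul_eq_mul]
    _ ≤ 3 * (2 * (NN ψ).card) := Nat.mul_le_mul_right _ hcard
    _ = 6 * (NN ψ).card := by ring

/-- Case: one point of type 2 and no point of type 3. -/
lemma case_inj (hψ : Function.Injective ψ) {j : Fin r × L} (hj : j.2 ≠ l0) {p1 : M}
    (hall : ∀ p, p ∉ NN ψ → Sees ψ p j → p = p1) :
    r * Fintype.card L ≤ (NN ψ).card := by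
  have hc : r * Fintype.card L = (univ : Finset (Fin r × L)).card := by
    rw [Finset.card_univ, Fintype.card_prod, Fintype.card_fin]
  rw [hc]
  refine Finset.card_le_card_of_injOn (fun w => ψ (T j w j) p1) (fun w _ => mem_NN _ _) ?_
  intro w _ w' _ hww
  by_contra hne
  obtain ⟨p, hp, hpne⟩ := exists_sep hmul hψ hj hne j
  rw [hall p hp ⟨_, _, _, hpne⟩] at hpne
  exact hpne hww

/-- The values of constants at `p1`, in class `c`. -/
noncomputable def PP (ψ : (Fin r × L → Fin r × L) → (M → M)) (p : M) (c : Fin r) : Finset M :=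
  (univ : Finset L).image fun l => ψ (fun _ => (c, l)) p

omit [Fintype L] [Fintype M] hmul in
lemma T_self (j w : Fin r × L) : T j w w = fun _ => w := by
  funext i
  unfold T
  split_ifs <;> rfl

omit hmul in
lemma PP_subset (p : M) (c : Fin r) : PP ψ p c ⊆ NN ψ := by
  intro m hm
  simp only [PP, mem_image] at hm
  obtain ⟨l, _, rfl⟩ := hm
  exact mem_NN _ _

omit [Fintype L] [Fintype M] hmul in
lemma ess_const {p : M} {j : Fin r × L} (h : Type2 ψ p j) :
    Ess (fun w : Unit → Fin r × L => ψ (fun _ => w ()) p) () := by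
  obtain ⟨⟨w, w', v, hne⟩, h2⟩ := h
  refine ⟨fun _ => w, fun _ => w', fun k hk => absurd rfl hk, ?_⟩
  simp only
  rw [← T_self j w, ← T_self j w', h2 w w v, h2 w' w' v]
  exact hne

/-- Case: one point of type 2 and one point of type 3. -/
lemma case_one (hψ : Function.Injective ψ) {j : Fin r × L} (hj : j.2 ≠ l0) {p1 p2 : M}
    (h1 : Type2 ψ p1 j) (h2 : Type3 ψ p2 j)
    (hall : ∀ p, p ∉ NN ψ → Sees ψ p j → p = p1 ∨ p = p2) {t : ℕ}
    (ht : t ^ 2 ≤ 2 * ((r - 1) * Fintype.card L)) :
    r * t ≤ (NN ψ).card := by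
  have hmor1 := isMor_coloring hmul (fun _ : Fin r × L => ()) p1
  have hmor2 := isMor_coloring hmul (fun i => if i = j then (0 : Fin 2) else 1) p2
  have hess := ess_const h1
  -- disjointness
  have hPP : ∀ (c c' : Fin r) (m : M), m ∈ PP ψ p1 c → m ∈ PP ψ p1 c' → c = c' := by
    intro c c' m hm hm'
    simp only [PP, mem_image, mem_univ, true_and] at hm hm'
    obtain ⟨l, rfl⟩ := hm
    obtain ⟨l', hl'⟩ := hm'
    by_contra hne
    refine not_eq_of_ess hmor1 hmor1 hess (w := fun _ => (c, l)) (w' := fun _ => (c', l')) ?_ ?_ ?_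
    · intro a b _; rfl
    · intro _; exact fun h => hne h.symm
    · exact hl'.symm
  have hPF : ∀ (c c' d' : Fin r) (m : M), c' ≠ d' → m ∈ PP ψ p1 c → m ∉ FF ψ p2 j c' d' := by
    intro c c' d' m hcd hm hm'
    simp only [PP, FF, mem_image, mem_univ, true_and] at hm hm'
    obtain ⟨l, rfl⟩ := hm
    obtain ⟨q, hq⟩ := hm'
    have hinj : Function.Injective
        fun i => ((![(c', q.1), (d', q.2)] : Fin 2 → Fin r × L) i).1 := by
      intro a b hab
      fin_cases a <;> fin_cases b
      · rfl
      · exact absurd hab hcd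
      · exact absurd hab.symm hcd
      · rfl
    by_cases hc : c = c'
    · refine not_eq_of_ess hmor2 hmor1 (ess_one_of_type3 h2) hinj (w' := fun _ => (c, l)) ?_ ?_
      · intro _ h
        exact hcd (hc.symm.trans h)
      · simp only [T_eq]
        exact hq
    · refine not_eq_of_ess hmor2 hmor1 (ess_zero_of_sees h2.1) hinj (w' := fun _ => (c, l)) ?_ ?_
      · intro _ h
        exact hc h
      · simp only [T_eq]
        exact hq
  have hPS : ∀ (c : Fin r) (x : Fin r × Fin r) (m : M), x.1 ≠ x.2 → m ∈ PP ψ p1 c →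
      m ∉ SS ψ p2 j x.1 x.2 := by
    intro c x m hx hm hm'
    rcases mem_union.1 hm' with h | h
    · exact hPF c x.1 x.2 m hx hm h
    · exact hPF c x.2 x.1 m hx.symm hm h
  -- the weighted count
  have hcount : 2 * ∑ c : Fin r, (PP ψ p1 c).card +
      ∑ x ∈ univ.filter (fun x : Fin r × Fin r => x.1 ≠ x.2), (SS ψ p2 j x.1 x.2).card ≤
      2 * (NN ψ).card := by
    rw [sum_card_eq (univ.filter (fun x : Fin r × Fin r => x.1 ≠ x.2)) _ (NN ψ)
        fun x _ => SS_subset p2 j x.1 x.2,
      sum_card_eq univ _ (NN ψ) fun c _ => PP_subset p1 c, Finset.mul_sum,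
      ← Finset.sum_add_distrib]
    calc ∑ m ∈ NN ψ, (2 * (univ.filter fun c => m ∈ PP ψ p1 c).card +
          ((univ.filter fun x : Fin r × Fin r => x.1 ≠ x.2).filter
            fun x => m ∈ SS ψ p2 j x.1 x.2).card) ≤ ∑ m ∈ NN ψ, 2 := by
          refine Finset.sum_le_sum fun m _ => ?_
          by_cases hm : ∃ c, m ∈ PP ψ p1 c
          · obtain ⟨c, hc⟩ := hm
            have e1 : (univ.filter fun c => m ∈ PP ψ p1 c) ⊆ {c} := by
              intro c' hc'
              rw [mem_filter] at hc'
              rw [mem_singleton]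
              exact hPP _ _ m hc'.2 hc
            have e2 : ((univ.filter fun x : Fin r × Fin r => x.1 ≠ x.2).filter
                fun x => m ∈ SS ψ p2 j x.1 x.2) = ∅ := by
              rw [filter_eq_empty_iff]
              intro x hx
              rw [mem_filter] at hx
              exact hPS c x m hx.2 hc
            have e3 := card_le_card e1
            rw [card_singleton] at e3
            rw [e2, card_empty]
            omega
          · push Not at hm
            have e1 : (univ.filter fun c => m ∈ PP ψ p1 c) = ∅ := by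
              rw [filter_eq_empty_iff]
              intro c _
              exact hm c
            rw [e1, card_empty]
            have := SS_count hmul h2 m
            omega
      _ = 2 * (NN ψ).card := by rw [Finset.sum_const, smul_eq_mul, mul_comm]
  -- the separation inequality
  have hsep : ∀ c d : Fin r, c ≠ d →
      Fintype.card L ≤ (PP ψ p1 c).card * (SS ψ p2 j c d).card := by
    intro c d hcd
    rw [← Finset.card_product, ← Finset.card_univ]
    refine Finset.card_le_card_of_injOn
      (fun l => (ψ (fun _ => (c, l)) p1, ψ (T j (c, l) (d, l0)) p2)) ?_ ?_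
    · intro l _
      rw [Finset.mem_coe, Finset.mem_product]
      refine ⟨?_, mem_union_left _ ?_⟩
      · simp only [PP, mem_image, mem_univ, true_and]
        exact ⟨l, rfl⟩
      · simp only [FF, mem_image, mem_univ, true_and]
        exact ⟨(l, l0), rfl⟩
    · intro l _ l' _ hll
      by_contra hne
      obtain ⟨p, hp, hpne⟩ := exists_sep hmul hψ hj (w := (c, l)) (w' := (c, l'))
        (fun h => hne (congrArg Prod.snd h)) (d, l0)
      simp only [Prod.mk.injEq] at hll
      rcases hall p hp ⟨_, _, _, hpne⟩ with rfl | rfl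
      · apply hpne
        rw [h1.2 (c, l) (d, l0) (c, l), h1.2 (c, l') (d, l0) (c, l'), T_self, T_self]
        exact hll.1
      · exact hpne hll.2
  -- per class
  have hper : ∀ c : Fin r, 2 * t ≤ 2 * (PP ψ p1 c).card +
      ∑ d ∈ univ.filter (fun d => c ≠ d), (SS ψ p2 j c d).card := by
    intro c
    set b := (PP ψ p1 c).card with hb
    have hb0 : 0 < b := by
      rw [hb, Finset.card_pos]
      exact ⟨_, mem_image.2 ⟨l0, mem_univ _, rfl⟩⟩
    set σ := ∑ d ∈ univ.filter (fun d => c ≠ d), (SS ψ p2 j c d).card with hσ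
    have hsum : (r - 1) * Fintype.card L ≤ b * σ := by
      rw [hσ, Finset.mul_sum]
      have hcd : (univ.filter fun d : Fin r => c ≠ d).card = r - 1 := by
        have e1 : (univ.filter fun d : Fin r => c ≠ d) = univ.erase c := by
          ext d
          simp [ne_comm]
        rw [e1, Finset.card_erase_of_mem (mem_univ _), Finset.card_univ, Fintype.card_fin]
      calc (r - 1) * Fintype.card L = ∑ d ∈ univ.filter (fun d => c ≠ d), Fintype.card L := by
            rw [Finset.sum_const, hcd, smul_eq_mul]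
        _ ≤ _ := Finset.sum_le_sum fun d hd => by
            rw [mem_filter] at hd
            exact hsep c d hd.2
    by_contra hcon
    push Not at hcon
    have e1 : 2 * (b * (2 * b + σ)) < 2 * (b * (2 * t)) := by
      have := Nat.mul_lt_mul_of_pos_left hcon hb0
      omega
    have e2 : t ^ 2 ≤ 2 * (b * σ) := ht.trans (Nat.mul_le_mul_left 2 hsum)
    zify at e1 e2
    nlinarith [sq_nonneg ((t : ℤ) - 2 * b)]
  -- sum over the classes
  have htot : ∑ x ∈ univ.filter (fun x : Fin r × Fin r => x.1 ≠ x.2), (SS ψ p2 j x.1 x.2).card =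
      ∑ c : Fin r, ∑ d ∈ univ.filter (fun d => c ≠ d), (SS ψ p2 j c d).card := by
    rw [Finset.sum_filter, ← Finset.univ_product_univ, Finset.sum_product]
    refine Finset.sum_congr rfl fun c _ => ?_
    rw [Finset.sum_filter]
  have hfin : r * (2 * t) ≤ 2 * ∑ c : Fin r, (PP ψ p1 c).card +
      ∑ x ∈ univ.filter (fun x : Fin r × Fin r => x.1 ≠ x.2), (SS ψ p2 j x.1 x.2).card := by
    rw [htot, Finset.mul_sum, ← Finset.sum_add_distrib]
    calc r * (2 * t) = ∑ c : Fin r, 2 * t := by
          rw [Finset.sum_const, Finset.card_univ, Fintype.card_fin, smul_eq_mul]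
      _ ≤ _ := Finset.sum_le_sum fun c _ => hper c
  have hlast := hfin.trans hcount
  have : r * (2 * t) = 2 * (r * t) := by ring
  omega

/-- **The lower bound.** -/
theorem lower_bound (hψ : Function.Injective ψ) {s t k B : ℕ} (hs : 3 * s + 1 ≤ r)
    (hBs : B ≤ s ^ 3) (ht : t ^ 2 ≤ 2 * ((r - 1) * Fintype.card L)) (hk : 2 ≤ k)
    (hkL : k ^ 3 ≤ Fintype.card L) (hBk : 6 * B ≤ (r * r - r) * k)
    (hB1 : B ≤ 2 * (r * (Fintype.card L - 1)))
    (hB2 : B ≤ r * Fintype.card L + r * (Fintype.card L - 1))
    (hB3 : 2 * B ≤ 2 * (r * t) + 3 * (r * (Fintype.card L - 1))) :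
    B ≤ Fintype.card M := by
  by_contra hcon
  push Not at hcon
  have hNM : (NN ψ).card ≤ Fintype.card M := Finset.card_le_univ _
  have hsmall : (NN ψ).card < s ^ 3 := by omega
  set G : Finset M := univ.filter fun p => p ∉ NN ψ with hG
  have hNG : (NN ψ).card + G.card = Fintype.card M := by
    have h1 := Finset.card_filter_add_card_filter_not (s := (univ : Finset M))
      (fun p => p ∈ NN ψ)
    rw [← Finset.card_univ, ← h1, hG]
    congr 2
    ext p
    simp
  set J : Finset (Fin r × L) := univ.filter fun j => j.2 ≠ l0 with hJ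
  have hJcard : J.card = r * (Fintype.card L - 1) := by
    have h1 : J = (univ : Finset (Fin r)) ×ˢ (univ.erase l0) := by
      ext x
      simp [hJ]
    rw [h1, Finset.card_product, Finset.card_univ, Fintype.card_fin,
      Finset.card_erase_of_mem (mem_univ _), Finset.card_univ]
  let wt : Fin r × L → ℕ := fun j =>
    2 * (G.filter fun p => Type2 ψ p j).card + (G.filter fun p => Type3 ψ p j).card
  have hwt : ∑ j ∈ J, wt j ≤ 2 * G.card := by
    have swap : ∀ P : M → Fin r × L → Prop,
        ∑ j : Fin r × L, (G.filter fun p => P p j).card =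
          ∑ p ∈ G, (univ.filter fun j => P p j).card := by
      intro P
      simp only [Finset.card_filter]
      rw [Finset.sum_comm]
    calc ∑ j ∈ J, wt j ≤ ∑ j : Fin r × L, wt j :=
          Finset.sum_le_sum_of_subset (Finset.subset_univ _)
      _ = 2 * ∑ j : Fin r × L, (G.filter fun p => Type2 ψ p j).card +
          ∑ j : Fin r × L, (G.filter fun p => Type3 ψ p j).card := by
          rw [Finset.mul_sum, ← Finset.sum_add_distrib]
      _ = ∑ p ∈ G, (2 * (univ.filter fun j => Type2 ψ p j).card +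
          (univ.filter fun j => Type3 ψ p j).card) := by
          rw [swap, swap, Finset.mul_sum, ← Finset.sum_add_distrib]
      _ ≤ ∑ p ∈ G, 2 := Finset.sum_le_sum fun p _ => count_le hmul hs hsmall p
      _ = 2 * G.card := by rw [Finset.sum_const, smul_eq_mul, mul_comm]
  have tri : ∀ j ∈ J, 4 ≤ wt j ∨ (3 ≤ wt j ∧ r * t ≤ (NN ψ).card) ∨
      (2 ≤ wt j ∧ r * Fintype.card L ≤ (NN ψ).card) := by
    intro j hj
    rw [hJ, mem_filter] at hj
    have hj2 := hj.2
    set T2 := G.filter fun p => Type2 ψ p j with hT2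
    set T3 := G.filter fun p => Type3 ψ p j with hT3
    have hwj : wt j = 2 * T2.card + T3.card := rfl
    have hall : ∀ p, p ∉ NN ψ → Sees ψ p j → p ∈ T2 ∨ p ∈ T3 := by
      intro p hp hsee
      have hpG : p ∈ G := by rw [hG, mem_filter]; exact ⟨mem_univ _, hp⟩
      by_cases h : ∀ w v v' : Fin r × L, ψ (T j w v) p = ψ (T j w v') p
      · left
        rw [hT2, mem_filter]
        exact ⟨hpG, hsee, h⟩
      · right
        rw [hT3, mem_filter]
        exact ⟨hpG, hsee, h⟩
    rcases Nat.lt_or_ge T2.card 2 with h2 | h2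
    · rcases Nat.lt_or_ge T2.card 1 with h1 | h1
      · -- no point of type 2
        have hT2e : T2 = ∅ := by rw [← Finset.card_eq_zero]; omega
        rcases Nat.lt_or_ge T3.card 4 with h3 | h3
        · exfalso
          have := case_zero hmul hψ hj2 T3 (fun p hp => by
            rw [hT3, mem_filter] at hp; exact hp.2) (by omega) (fun p hp hsee => by
              rcases hall p hp hsee with h | h
              · rw [hT2e] at h; simp at h
              · exact h) hk hkL
          omega
        · left; omega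
      · -- exactly one point of type 2
        have hT2c : T2.card = 1 := by omega
        obtain ⟨p1, hp1⟩ := Finset.card_eq_one.1 hT2c
        have hp1' : Type2 ψ p1 j := by
          have : p1 ∈ T2 := by rw [hp1]; simp
          rw [hT2, mem_filter] at this
          exact this.2
        rcases Nat.lt_or_ge T3.card 2 with h3 | h3
        · rcases Nat.lt_or_ge T3.card 1 with h4 | h4
          · right; right
            have hT3e : T3 = ∅ := by rw [← Finset.card_eq_zero]; omega
            refine ⟨by omega, case_inj hmul hψ hj2 (p1 := p1) fun p hp hsee => ?_⟩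
            rcases hall p hp hsee with h | h
            · rw [hp1, mem_singleton] at h; exact h
            · rw [hT3e] at h; simp at h
          · right; left
            have hT3c : T3.card = 1 := by omega
            obtain ⟨p2, hp2⟩ := Finset.card_eq_one.1 hT3c
            have hp2' : Type3 ψ p2 j := by
              have : p2 ∈ T3 := by rw [hp2]; simp
              rw [hT3, mem_filter] at this
              exact this.2
            refine ⟨by omega, case_one hmul hψ hj2 hp1' hp2' (fun p hp hsee => ?_) ht⟩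
            rcases hall p hp hsee with h | h
            · left; rw [hp1, mem_singleton] at h; exact h
            · right; rw [hp2, mem_singleton] at h; exact h
        · left; omega
    · left; omega
  have hsum : ∀ c : ℕ, (∀ j ∈ J, c ≤ wt j) → c * (r * (Fintype.card L - 1)) ≤ 2 * G.card := by
    intro c hc
    refine le_trans ?_ hwt
    rw [← hJcard, mul_comm, ← smul_eq_mul, ← Finset.sum_const]
    exact Finset.sum_le_sum hc
  by_cases hc1 : ∃ j ∈ J, 2 ≤ wt j ∧ r * Fintype.card L ≤ (NN ψ).card
  · obtain ⟨_, _, _, h1⟩ := hc1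
    have h2 := hsum 2 fun j hj => by
      rcases tri j hj with h | h | h <;> omega
    omega
  · push Not at hc1
    by_cases hc2 : ∃ j ∈ J, 3 ≤ wt j ∧ r * t ≤ (NN ψ).card
    · obtain ⟨_, _, _, h1⟩ := hc2
      have h2 := hsum 3 fun j hj => by
        rcases tri j hj with h | h | h
        · omega
        · omega
        · have := hc1 j hj h.1
          omega
      omega
    · push Not at hc2
      have h2 := hsum 4 fun j hj => by
        rcases tri j hj with h | h | h
        · omega
        · have := hc2 j hj h.1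
          omega
        · have := hc1 j hj h.1
          omega
      omega

end Fin

end Pool.Agent.R727.VariantsLower
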